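import Mathlib

/-!
# Piercing pairwise intersecting caps by a bounded number of points
-/

namespace Pool.Agent.H48

open Module

/-- A finite net of the ball of radius two. -/
theorem exists_net (m : ℕ) : ∃ Z : Finset (EuclideanSpace ℝ (Fin m)),
    ∀ x : EuclideanSpace ℝ (Fin m), ‖x‖ ≤ 2 → ∃ z ∈ Z, ‖x - z‖ < 1 := by
  obtain ⟨t, -, htfin, ht⟩ :=
    (isCompact_closedBall (0 : EuclideanSpace ℝ (Fin m)) 2).finite_cover_balls one_pos
  refine ⟨htfin.toFinset, fun x hx => ?_⟩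
  have hx' : x ∈ Metric.closedBall (0 : EuclideanSpace ℝ (Fin m)) 2 := by
    simpa using hx
  have := ht hx'
  simp only [Set.mem_iUnion, Metric.mem_ball, exists_prop] at this
  obtain ⟨z, hz, hxz⟩ := this
  exact ⟨z, by simpa using hz, by rwa [dist_eq_norm] at hxz⟩

/-- A fixed net. -/
noncomputable def net (m : ℕ) : Finset (EuclideanSpace ℝ (Fin m)) := (exists_net m).choose

theorem net_spec (m : ℕ) (x : EuclideanSpace ℝ (Fin m)) (hx : ‖x‖ ≤ 2) :
    ∃ z ∈ net m, ‖x - z‖ < 1 := (exists_net m).choose_spec x hx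

/-- Pairwise intersecting balls are pierced by a rescaled copy of the net. -/
theorem pierce_balls {m : ℕ} {I : Type*} [Finite I] (p : I → EuclideanSpace ℝ (Fin m))
    (ρ : I → ℝ) (hρ : ∀ i, 0 < ρ i) (hpair : ∀ i j, dist (p i) (p j) ≤ ρ i + ρ j) :
    ∃ q : EuclideanSpace ℝ (Fin m) → EuclideanSpace ℝ (Fin m),
      ∀ i, ∃ z ∈ net m, ‖q z - p i‖ < ρ i := by
  rcases isEmpty_or_nonempty I with hI | hI
  · exact ⟨id, fun i => (hI.false i).elim⟩
  obtain ⟨i₀, hi₀⟩ := Finite.exists_min ρ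
  set r := ρ i₀ with hr
  have hr0 : 0 < r := hρ i₀
  refine ⟨fun z => p i₀ + r • z, fun i => ?_⟩
  set D := ‖p i - p i₀‖ with hD
  have hDle : D ≤ ρ i + r := by
    have := hpair i i₀
    rwa [dist_eq_norm] at this
  rcases le_or_gt D (2 * r) with hle | hgt
  · -- nearby centre
    have hx : ‖r⁻¹ • (p i - p i₀)‖ ≤ 2 := by
      rw [norm_smul, Real.norm_of_nonneg (inv_nonneg.2 hr0.le), ← hD, inv_mul_le_iff₀ hr0]
      linarith
    obtain ⟨z, hz, hxz⟩ := net_spec m _ hx
    refine ⟨z, hz, ?_⟩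
    have h1 : p i₀ + r • z - p i = -(r • (r⁻¹ • (p i - p i₀) - z)) := by
      rw [smul_sub, smul_smul, mul_inv_cancel₀ hr0.ne', one_smul]; abel
    rw [h1, norm_neg, norm_smul, Real.norm_of_nonneg hr0.le]
    calc r * ‖r⁻¹ • (p i - p i₀) - z‖ < r * 1 := mul_lt_mul_of_pos_left hxz hr0
      _ = r := mul_one r
      _ ≤ ρ i := hi₀ i
  · -- far centre
    have hD0 : 0 < D := by linarith
    have hx : ‖(2 / D) • (p i - p i₀)‖ ≤ 2 := by
      rw [norm_smul, Real.norm_of_nonneg (by positivity), ← hD, div_mul_cancel₀ _ hD0.ne']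
    obtain ⟨z, hz, hxz⟩ := net_spec m _ hx
    refine ⟨z, hz, ?_⟩
    have h1 : p i₀ + r • z - p i =
        -(r • ((2 / D) • (p i - p i₀) - z)) - (1 - 2 * r / D) • (p i - p i₀) := by
      rw [smul_sub, smul_smul]
      have : r * (2 / D) = 2 * r / D := by ring
      rw [this]
      module
    have h2 : 0 ≤ 1 - 2 * r / D := by
      rw [sub_nonneg, div_le_one hD0]; exact hgt.le
    rw [h1]
    calc ‖-(r • ((2 / D) • (p i - p i₀) - z)) - (1 - 2 * r / D) • (p i - p i₀)‖
        ≤ ‖-(r • ((2 / D) • (p i - p i₀) - z))‖ + ‖(1 - 2 * r / D) • (p i - p i₀)‖ :=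
          norm_sub_le _ _
      _ = r * ‖(2 / D) • (p i - p i₀) - z‖ + (1 - 2 * r / D) * D := by
          rw [norm_neg, norm_smul, norm_smul, Real.norm_of_nonneg hr0.le,
            Real.norm_of_nonneg h2]
      _ < r * 1 + (1 - 2 * r / D) * D := by
          have := mul_lt_mul_of_pos_left hxz hr0
          linarith
      _ = r + D - 2 * r := by field_simp; ring
      _ ≤ ρ i := by linarith

end Pool.Agent.H48
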