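import Mathlib

/-!
# Scribability: the definitions used in the statement

Points of `ℝ^{d+1}` have coordinates `x 0, x 1, …, x d`.  A spherical `d`-polytope is `K ∩ S^d` for a
pointed `(d+1)`-dimensional polyhedral cone `K`; it is represented here by its cone `K`, and its
`i`-faces are represented by the `(i+1)`-dimensional faces of `K`.
-/

namespace Pool.Agent.Scribability

/-- The space `ℝ^{d+1}`, coordinates indexed by `0, …, d`. -/
abbrev E (d : ℕ) := EuclideanSpace ℝ (Fin (d + 1))

/-- The set `𝓑 ⊂ S^d` of all unit vectors `x` with `x₀ ≥ 0` and `x₀² ≥ x₁² + ⋯ + x_d²`. -/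
def ball (d : ℕ) : Set (E d) :=
  {x | ‖x‖ = 1 ∧ 0 ≤ x 0 ∧ ∑ i : Fin d, x i.succ ^ 2 ≤ x 0 ^ 2}

/-- `K` is a pointed `(d+1)`-dimensional polyhedral cone in `ℝ^{d+1}`: the conical hull of finitely
many vectors, spanning `ℝ^{d+1}` and containing no line.  So `K ∩ S^d` is a spherical `d`-polytope. -/
structure IsSphericalPolytope (d : ℕ) (K : PointedCone ℝ (E d)) : Prop where
  fg : K.FG
  span_eq_top : Submodule.span ℝ (K : Set (E d)) = ⊤
  no_line : ∀ x ∈ K, -x ∈ K → x = 0

/-- The face lattice of the cone `K` (all faces, from the zero face to `K` itself), ordered by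
inclusion.  Its isomorphism type is the combinatorial type of `K ∩ S^d`. -/
abbrev FaceLattice {d : ℕ} (K : PointedCone ℝ (E d)) := {F : PointedCone ℝ (E d) // F.IsFaceOf K}

/-- `F` is (the cone over) an `i`-face of `K ∩ S^d`: a face of `K` of dimension `i + 1`. -/
def IsFaceOfDim {d : ℕ} (i : ℕ) (F K : PointedCone ℝ (E d)) : Prop :=
  F.IsFaceOf K ∧ Module.finrank ℝ (Submodule.span ℝ (F : Set (E d))) = i + 1

/-- The face `F` strongly cuts the sphere: its relative interior meets `𝓑`. -/
def StronglyCuts {d : ℕ} (F : PointedCone ℝ (E d)) : Prop :=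
  (intrinsicInterior ℝ (F : Set (E d)) ∩ ball d).Nonempty

/-- The face `F` of `K` strongly avoids the sphere: some supporting hyperplane `H = {ℓ = 0}` of `K`
has `H ∩ K = F` and `𝓑` lies in the closed half-space `{ℓ ≤ 0}` that contains `K`. -/
def StronglyAvoids {d : ℕ} (F K : PointedCone ℝ (E d)) : Prop :=
  ∃ ℓ : E d →ₗ[ℝ] ℝ, ℓ ≠ 0 ∧ (∀ x ∈ K, ℓ x ≤ 0) ∧ (∀ x ∈ K, x ∈ F ↔ ℓ x = 0) ∧
    ∀ x ∈ ball d, ℓ x ≤ 0

/-- The combinatorial type of the spherical `d`-polytope with cone `K` is strongly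
`(i,j)`-scribable: it has a realization (a spherical `d`-polytope with isomorphic face lattice) all
of whose `i`-faces strongly avoid the sphere and all of whose `j`-faces strongly cut it. -/
def IsScribable {d : ℕ} (i j : ℕ) (K : PointedCone ℝ (E d)) : Prop :=
  ∃ K' : PointedCone ℝ (E d), IsSphericalPolytope d K' ∧
    Nonempty (FaceLattice K ≃o FaceLattice K') ∧
    (∀ F, IsFaceOfDim i F K' → StronglyAvoids F K') ∧
    (∀ F, IsFaceOfDim j F K' → StronglyCuts F)

end Pool.Agent.Scribability
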