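import Mathlib
import Pool.Agent.H48.ScribeDefs
import Pool.Agent.H48.Pierce

/-!
# Colouring the vertices of a scribed polytope
-/

namespace Pool.Agent.H48

open Module Pool.Agent.Scribability

variable {m : ℕ}

/-- `A u = u₀ - u_last`. -/
noncomputable def fA (m : ℕ) : E (m + 1) →ₗ[ℝ] ℝ :=
  (EuclideanSpace.proj (0 : Fin (m + 2)) : E (m+1) →L[ℝ] ℝ).toLinearMap -
    (EuclideanSpace.proj (Fin.last (m + 1)) : E (m+1) →L[ℝ] ℝ).toLinearMap

/-- `S u = u₀ + u_last`. -/
noncomputable def fS (m : ℕ) : E (m + 1) →ₗ[ℝ] ℝ :=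
  (EuclideanSpace.proj (0 : Fin (m + 2)) : E (m+1) →L[ℝ] ℝ).toLinearMap +
    (EuclideanSpace.proj (Fin.last (m + 1)) : E (m+1) →L[ℝ] ℝ).toLinearMap

/-- The middle coordinates. -/
noncomputable def mid (m : ℕ) : E (m + 1) →ₗ[ℝ] EuclideanSpace ℝ (Fin m) where
  toFun u := WithLp.toLp 2 (fun k : Fin m => u (k.castSucc.succ))
  map_add' u v := by ext k; simp
  map_smul' r u := by ext k; simp

@[simp] theorem fA_apply (u : E (m + 1)) : fA m u = u 0 - u (Fin.last (m + 1)) := rfl
@[simp] theorem fS_apply (u : E (m + 1)) : fS m u = u 0 + u (Fin.last (m + 1)) := rfl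
@[simp] theorem mid_apply (u : E (m + 1)) (k : Fin m) : mid m u k = u (k.castSucc.succ) := rfl

/-- Evaluation of the tangent functional at the point `y` of the sphere (paraboloid model). -/
noncomputable def tangent (y : EuclideanSpace ℝ (Fin m)) : E (m + 1) →ₗ[ℝ] ℝ :=
  -(‖y‖ ^ 2 / 2) • fA m + (innerₛₗ ℝ y : EuclideanSpace ℝ (Fin m) →ₗ[ℝ] ℝ) ∘ₗ mid m - (1 / 2 : ℝ) • fS m

theorem tangent_apply (y : EuclideanSpace ℝ (Fin m)) (u : E (m + 1)) :
    tangent y u = -(‖y‖ ^ 2 / 2) * fA m u + inner ℝ y (mid m u) - (1 / 2) * fS m u := by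
  simp [tangent]

theorem ext_of_coords {u v : E (m + 1)} (hA : fA m u = fA m v) (hS : fS m u = fS m v)
    (hm : mid m u = mid m v) : u = v := by
  have h0 : u 0 = v 0 := by
    simp only [fA_apply, fS_apply] at hA hS; linarith
  have hl : u (Fin.last (m + 1)) = v (Fin.last (m + 1)) := by
    simp only [fA_apply, fS_apply] at hA hS; linarith
  ext i
  refine Fin.cases h0 (fun j => ?_) i
  refine Fin.lastCases ?_ (fun k => ?_) j
  · rw [Fin.succ_last]; exact hl
  · have := congrArg (fun w : EuclideanSpace ℝ (Fin m) => w k) hm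
    simpa using this

theorem sum_sq_split (x : E (m + 1)) :
    ∑ i : Fin (m + 1), x i.succ ^ 2 = ‖mid m x‖ ^ 2 + x (Fin.last (m + 1)) ^ 2 := by
  rw [Fin.sum_univ_castSucc, EuclideanSpace.real_norm_sq_eq, Fin.succ_last]
  simp

/-- Membership in the closed future cone. -/
theorem ball_coords {x : E (m + 1)} (hx : x ∈ ball (m + 1)) :
    0 ≤ fA m x ∧ 0 ≤ fS m x ∧ ‖mid m x‖ ^ 2 ≤ fA m x * fS m x := by
  obtain ⟨-, h0, hsq⟩ := hx
  rw [sum_sq_split] at hsq
  have h1 : x (Fin.last (m + 1)) ^ 2 ≤ x 0 ^ 2 := by nlinarith [sq_nonneg ‖mid m x‖]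
  have h2 : |x (Fin.last (m + 1))| ≤ x 0 := by
    rw [← abs_of_nonneg h0]; exact sq_le_sq.1 h1
  rw [abs_le] at h2
  refine ⟨by simp only [fA_apply]; linarith, by simp only [fS_apply]; linarith, ?_⟩
  simp only [fA_apply, fS_apply]
  nlinarith

theorem tangent_nonpos (y : EuclideanSpace ℝ (Fin m)) {x : E (m + 1)} (hx : x ∈ ball (m + 1)) :
    tangent y x ≤ 0 := by
  obtain ⟨hA, hS, hm⟩ := ball_coords hx
  rw [tangent_apply]
  have h1 : inner ℝ y (mid m x) ≤ ‖y‖ * ‖mid m x‖ := real_inner_le_norm _ _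
  have h2 : ‖y‖ * ‖mid m x‖ ≤ (fA m x * ‖y‖ ^ 2 + fS m x) / 2 := by
    apply le_of_abs_le
    apply abs_le_of_sq_le_sq _ (by positivity)
    nlinarith [sq_nonneg (fA m x * ‖y‖ ^ 2 - fS m x), mul_le_mul_of_nonneg_left hm (sq_nonneg ‖y‖)]
  linarith

/-- The functional `-A`. -/
theorem neg_fA_nonpos {x : E (m + 1)} (hx : x ∈ ball (m + 1)) : (-fA m) x ≤ 0 := by
  have := (ball_coords hx).1
  simp only [LinearMap.neg_apply]
  linarith

/-- A functional that is nonpositive on the ball is nonpositive on the cone over it. -/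
theorem nonpos_of_cone {d : ℕ} {ℓ : E d →ₗ[ℝ] ℝ} (hℓ : ∀ x ∈ ball d, ℓ x ≤ 0) {x : E d}
    (h0 : 0 ≤ x 0) (hx : ∑ i : Fin d, x i.succ ^ 2 ≤ x 0 ^ 2) : ℓ x ≤ 0 := by
  rcases eq_or_ne x 0 with rfl | hne
  · simp
  have hn : 0 < ‖x‖ := norm_pos_iff.2 hne
  have hmem : (‖x‖⁻¹ • x) ∈ ball d := by
    refine ⟨?_, ?_, ?_⟩
    · rw [norm_smul, norm_inv, norm_norm, inv_mul_cancel₀ hn.ne']
    · simp only [PiLp.smul_apply, smul_eq_mul]; positivity
    · simp only [PiLp.smul_apply, smul_eq_mul, mul_pow]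
      rw [← Finset.mul_sum]
      exact mul_le_mul_of_nonneg_left hx (by positivity)
  have := hℓ _ hmem
  rw [map_smul, smul_eq_mul] at this
  by_contra hcon
  push Not at hcon
  have : 0 < ‖x‖⁻¹ * ℓ x := by positivity
  linarith

/-- Coordinates of a functional that is nonpositive on the ball. -/
theorem functional_coords {ℓ : E (m + 1) →ₗ[ℝ] ℝ} (hne : ℓ ≠ 0)
    (hℓ : ∀ x ∈ ball (m + 1), ℓ x ≤ 0) :
    ∃ (a s : ℝ) (τ : EuclideanSpace ℝ (Fin m)), 0 ≤ a ∧ 0 ≤ s ∧ (a ≠ 0 ∨ s ≠ 0) ∧
      ‖τ‖ ^ 2 ≤ a * s ∧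
      ∀ u, ℓ u = inner ℝ τ (mid m u) - (1 / 2) * (a * fS m u + s * fA m u) := by
  classical
  -- coefficients
  set t : Fin (m + 2) → ℝ := fun i => ℓ (EuclideanSpace.single i 1) with ht
  have hexp : ∀ u : E (m + 1), ℓ u = ∑ i, u i * t i := by
    intro u
    have : u = ∑ i, u i • EuclideanSpace.single i (1 : ℝ) := by
      conv_lhs => rw [← (EuclideanSpace.basisFun (Fin (m + 2)) ℝ).sum_repr u]
      simp
    conv_lhs => rw [this]
    rw [map_sum]
    simp [ht]
  have hexp' : ∀ u : E (m + 1), ℓ u = u 0 * t 0 +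
      (∑ k : Fin m, u (k.castSucc.succ) * t (k.castSucc.succ) +
        u (Fin.last (m + 1)) * t (Fin.last (m + 1))) := by
    intro u
    rw [hexp, Fin.sum_univ_succ, Fin.sum_univ_castSucc, Fin.succ_last]
  set N2 : ℝ := ∑ i : Fin (m + 1), t i.succ ^ 2 with hN2
  have hN20 : 0 ≤ N2 := Finset.sum_nonneg fun _ _ => sq_nonneg _
  have hN : N2 ≤ t 0 ^ 2 ∧ t 0 ≤ 0 := by
    -- test vector
    set x : E (m + 1) := WithLp.toLp 2 (Fin.cons (Real.sqrt N2) (fun i => t i.succ)) with hx
    have hx0 : x 0 = Real.sqrt N2 := rfl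
    have hxs : ∀ i : Fin (m + 1), x i.succ = t i.succ := fun i => rfl
    have h1 : ℓ x ≤ 0 := by
      apply nonpos_of_cone hℓ
      · rw [hx0]; exact Real.sqrt_nonneg _
      · rw [hx0, Real.sq_sqrt hN20]
        simp only [hxs]; exact le_refl _
    have h2 : ℓ x = Real.sqrt N2 * t 0 + N2 := by
      rw [hexp, Fin.sum_univ_succ, hx0]
      simp only [hxs, hN2]
      congr 1
      exact Finset.sum_congr rfl fun i _ => by ring
    rw [h2] at h1
    have h3 : t 0 ≤ 0 := by
      have h4 : ℓ (EuclideanSpace.single 0 1) ≤ 0 := by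
        apply nonpos_of_cone hℓ
        · simp
        · simp
      exact h4
    refine ⟨?_, h3⟩
    have h5 : Real.sqrt N2 * Real.sqrt N2 = N2 := Real.mul_self_sqrt hN20
    have h6 : 0 ≤ Real.sqrt N2 := Real.sqrt_nonneg _
    rcases h6.eq_or_lt with h7 | h7
    · rw [← h7] at h5; nlinarith [sq_nonneg (t 0)]
    · have h8 : Real.sqrt N2 ≤ - t 0 := by
        have : Real.sqrt N2 * (t 0 + Real.sqrt N2) ≤ 0 := by nlinarith
        have := nonpos_of_mul_nonpos_right this h7
        linarith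
      nlinarith
  have hsplit : N2 = ∑ k : Fin m, t (k.castSucc.succ) ^ 2 + t (Fin.last (m + 1)) ^ 2 := by
    rw [hN2, Fin.sum_univ_castSucc, Fin.succ_last]
  have hT0 : 0 ≤ ∑ k : Fin m, t (k.castSucc.succ) ^ 2 := Finset.sum_nonneg fun _ _ => sq_nonneg _
  have hlast : |t (Fin.last (m + 1))| ≤ - t 0 := by
    rw [← abs_of_nonneg (by linarith [hN.2] : (0 : ℝ) ≤ - t 0)]
    apply sq_le_sq.1
    nlinarith [hN.1]
  rw [abs_le] at hlast
  refine ⟨-t 0 - t (Fin.last (m + 1)), -t 0 + t (Fin.last (m + 1)),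
    WithLp.toLp 2 (fun k : Fin m => t (k.castSucc.succ)), by linarith, by linarith, ?_, ?_, ?_⟩
  · by_contra hcon
    push Not at hcon
    have h0 : t 0 = 0 := by linarith [hcon.1, hcon.2]
    have hz : N2 = 0 := by nlinarith [hN.1]
    have hall : ∀ i : Fin (m + 1), t i.succ = 0 := by
      intro i
      have := (Finset.sum_eq_zero_iff_of_nonneg (fun i _ => sq_nonneg (t i.succ))).1
        (hN2 ▸ hz) i (Finset.mem_univ i)
      exact pow_eq_zero_iff (two_ne_zero) |>.1 this
    apply hne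
    ext u
    rw [hexp, Fin.sum_univ_succ]
    simp [h0, hall]
  · rw [EuclideanSpace.real_norm_sq_eq]
    have := hN.1
    rw [hsplit] at this
    simp only
    nlinarith
  · intro u
    rw [hexp', PiLp.inner_apply]
    simp only [mid_apply, fA_apply, fS_apply, RCLike.inner_apply, conj_trivial]
    ring


/-- Squared radius times `A²`, i.e. the Lorentz norm. -/
noncomputable def lor (u : E (m + 1)) : ℝ := ‖mid m u‖ ^ 2 - fA m u * fS m u

/-- The centre of the cap of `u` in the paraboloid model. -/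
noncomputable def ctr (u : E (m + 1)) : EuclideanSpace ℝ (Fin m) := (fA m u)⁻¹ • mid m u

theorem tangent_eq {u : E (m + 1)} (hA : 0 < fA m u) (y : EuclideanSpace ℝ (Fin m)) :
    tangent y u = (fA m u / 2) * (lor u / fA m u ^ 2 - ‖y - ctr u‖ ^ 2) := by
  rw [tangent_apply, ctr, lor, norm_sub_sq_real, norm_smul, inner_smul_right,
    Real.norm_of_nonneg (inv_nonneg.2 hA.le)]
  field_simp
  ring

theorem centre_dist {u : E (m + 1)} {a s : ℝ} {τ : EuclideanSpace ℝ (Fin m)} (ha : 0 < a)
    (hA : 0 < fA m u) (hτ : ‖τ‖ ^ 2 ≤ a * s)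
    (hu : inner ℝ τ (mid m u) - (1 / 2) * (a * fS m u + s * fA m u) = 0) :
    ‖a⁻¹ • τ - ctr u‖ ^ 2 ≤ lor u / fA m u ^ 2 := by
  rw [ctr, lor, norm_sub_sq_real, norm_smul, norm_smul, inner_smul_right, inner_smul_left,
    Real.norm_of_nonneg (inv_nonneg.2 hA.le), Real.norm_of_nonneg (inv_nonneg.2 ha.le)]
  have h1 : inner ℝ τ (mid m u) = (1 / 2) * (a * fS m u + s * fA m u) := by linarith
  simp only [conj_trivial]
  rw [h1]
  have h2 : (a⁻¹ * ‖τ‖) ^ 2 ≤ s / a := by
    rw [mul_pow, inv_pow]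
    rw [div_eq_inv_mul]
    calc (a ^ 2)⁻¹ * ‖τ‖ ^ 2 ≤ (a ^ 2)⁻¹ * (a * s) :=
          mul_le_mul_of_nonneg_left hτ (by positivity)
      _ = a⁻¹ * s := by field_simp
  have h3 : (fA m u)⁻¹ * (a⁻¹ * ((1 / 2) * (a * fS m u + s * fA m u))) =
      (1 / 2) * (fS m u / fA m u + s / a) := by
    field_simp
  have h4 : (‖mid m u‖ ^ 2 - fA m u * fS m u) / fA m u ^ 2 =
      ((fA m u)⁻¹ * ‖mid m u‖) ^ 2 - fS m u / fA m u := by
    field_simp
  rw [h3, h4]
  linarith

/-- The colours. -/
abbrev Col (m : ℕ) :=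
  Option (Option ((Fin m × Bool) ⊕ {z : EuclideanSpace ℝ (Fin m) // z ∈ net m}))

/-- Light-like vertices (at most one occurs). -/
def Light (u : E (m + 1)) : Prop := 0 ≤ fA m u ∧ lor u ≤ 0

theorem light_unique {u v : E (m + 1)} (hu : Light u) (hv : Light v)
    (hpar : ∀ r s : ℝ, r • u = s • v → r = 0 ∧ s = 0)
    (hℓ : ∃ ℓ : E (m + 1) →ₗ[ℝ] ℝ, ℓ ≠ 0 ∧ (∀ z ∈ ball (m + 1), ℓ z ≤ 0) ∧ ℓ u = 0 ∧ ℓ v = 0) :
    False := by
  obtain ⟨ℓ, hne, hball, hℓu, hℓv⟩ := hℓ
  obtain ⟨a, s, τ, ha, hs, has, hτ, hform⟩ := functional_coords hne hball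
  rw [hform] at hℓu hℓv
  obtain ⟨huA, huL⟩ := hu
  obtain ⟨hvA, hvL⟩ := hv
  have hmid0 : ∀ w : E (m + 1), fA m w = 0 → lor w ≤ 0 → mid m w = 0 := by
    intro w hw hl
    rw [lor, hw, zero_mul, sub_zero] at hl
    have : ‖mid m w‖ ^ 2 = 0 := le_antisymm hl (sq_nonneg _)
    exact norm_eq_zero.1 ((pow_eq_zero_iff two_ne_zero).1 this)
  -- if `A u = 0` then `A v = 0` and symmetrically
  have key : ∀ w w' : E (m + 1), fA m w = 0 → lor w ≤ 0 → w ≠ 0 →
      inner ℝ τ (mid m w) - (1 / 2) * (a * fS m w + s * fA m w) = 0 →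
      inner ℝ τ (mid m w') - (1 / 2) * (a * fS m w' + s * fA m w') = 0 → fA m w' = 0 := by
    intro w w' hwA hwL hw0 hw hw'
    have hm := hmid0 w hwA hwL
    rw [hm, hwA] at hw
    simp only [inner_zero_right, mul_zero, add_zero, zero_sub] at hw
    have hS : fS m w ≠ 0 := by
      intro hS
      apply hw0
      apply ext_of_coords
      · rw [hwA, map_zero]
      · rw [hS, map_zero]
      · rw [hm, map_zero]
    have ha0 : a = 0 := by
      have : a * fS m w = 0 := by linarith
      rcases mul_eq_zero.1 this with h | h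
      · exact h
      · exact absurd h hS
    have hτ0 : τ = 0 := by
      rw [ha0, zero_mul] at hτ
      have : ‖τ‖ ^ 2 = 0 := le_antisymm hτ (sq_nonneg _)
      exact norm_eq_zero.1 ((pow_eq_zero_iff two_ne_zero).1 this)
    have hs0 : s ≠ 0 := by
      rcases has with h | h
      · exact absurd ha0 h
      · exact h
    rw [ha0, hτ0] at hw'
    simp only [inner_zero_left, zero_mul, zero_add, zero_sub] at hw'
    have : s * fA m w' = 0 := by linarith
    rcases mul_eq_zero.1 this with h | h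
    · exact absurd h hs0
    · exact h
  have hu0 : u ≠ 0 := by
    rintro rfl
    have := hpar 1 0 (by simp)
    exact one_ne_zero this.1
  have hv0 : v ≠ 0 := by
    rintro rfl
    have := hpar 0 1 (by simp)
    exact one_ne_zero this.2
  by_cases hA0 : fA m u = 0
  · have hvA0 := key u v hA0 huL hu0 hℓu hℓv
    have hmu := hmid0 u hA0 huL
    have hmv := hmid0 v hvA0 hvL
    have heq : fS m v • u = fS m u • v := by
      apply ext_of_coords
      · rw [map_smul, map_smul, hA0, hvA0]; simp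
      · rw [map_smul, map_smul, smul_eq_mul, smul_eq_mul, mul_comm]
      · rw [map_smul, map_smul, hmu, hmv]; simp
    have h2 := (hpar _ _ heq).2
    apply hu0
    apply ext_of_coords
    · rw [hA0, map_zero]
    · rw [h2, map_zero]
    · rw [hmu, map_zero]
  · by_cases hvA0 : fA m v = 0
    · exact hA0 (key v u hvA0 hvL hv0 hℓv hℓu)
    · have hApos : 0 < fA m u := lt_of_le_of_ne huA (Ne.symm hA0)
      have hvApos : 0 < fA m v := lt_of_le_of_ne hvA (Ne.symm hvA0)
      -- `a > 0`
      have hapos : 0 < a := by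
        rcases ha.eq_or_lt with h | h
        · exfalso
          have ha0 : a = 0 := h.symm
          have hτ0 : τ = 0 := by
            rw [ha0, zero_mul] at hτ
            have : ‖τ‖ ^ 2 = 0 := le_antisymm hτ (sq_nonneg _)
            exact norm_eq_zero.1 ((pow_eq_zero_iff two_ne_zero).1 this)
          have hs0 : s ≠ 0 := by
            rcases has with h | h
            · exact absurd ha0 h
            · exact h
          rw [ha0, hτ0] at hℓu
          simp only [inner_zero_left, zero_mul, zero_add, zero_sub] at hℓu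
          have : s * fA m u = 0 := by linarith
          rcases mul_eq_zero.1 this with h | h
          · exact hs0 h
          · exact hA0 h
        · exact h
      have h1 := centre_dist hapos hApos hτ hℓu
      have h2 := centre_dist hapos hvApos hτ hℓv
      have h3 : lor u / fA m u ^ 2 ≤ 0 := div_nonpos_of_nonpos_of_nonneg huL (by positivity)
      have h4 : lor v / fA m v ^ 2 ≤ 0 := div_nonpos_of_nonpos_of_nonneg hvL (by positivity)
      have h5 : a⁻¹ • τ - ctr u = 0 :=
        norm_eq_zero.1 ((pow_eq_zero_iff two_ne_zero).1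
          (le_antisymm (h1.trans h3) (sq_nonneg _)))
      have h6 : a⁻¹ • τ - ctr v = 0 :=
        norm_eq_zero.1 ((pow_eq_zero_iff two_ne_zero).1
          (le_antisymm (h2.trans h4) (sq_nonneg _)))
      have h7 : ctr u = ctr v := by
        rw [sub_eq_zero] at h5 h6
        rw [← h5, ← h6]
      have h8 : lor u = 0 := by
        have : 0 ≤ lor u / fA m u ^ 2 := (sq_nonneg _).trans h1
        have h9 : lor u / fA m u ^ 2 = 0 := le_antisymm h3 this
        rcases div_eq_zero_iff.1 h9 with h | h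
        · exact h
        · exact absurd h (by positivity)
      have h9 : lor v = 0 := by
        have : 0 ≤ lor v / fA m v ^ 2 := (sq_nonneg _).trans h2
        have h9 : lor v / fA m v ^ 2 = 0 := le_antisymm h4 this
        rcases div_eq_zero_iff.1 h9 with h | h
        · exact h
        · exact absurd h (by positivity)
      have hmu : mid m u = fA m u • ctr u := by
        rw [ctr, smul_smul, mul_inv_cancel₀ hApos.ne', one_smul]
      have hmv : mid m v = fA m v • ctr v := by
        rw [ctr, smul_smul, mul_inv_cancel₀ hvApos.ne', one_smul]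
      have hSu : fS m u = fA m u * ‖ctr u‖ ^ 2 := by
        rw [lor, hmu, norm_smul, Real.norm_of_nonneg hApos.le] at h8
        have : fA m u * (fA m u * ‖ctr u‖ ^ 2 - fS m u) = 0 := by linarith
        rcases mul_eq_zero.1 this with h | h
        · exact absurd h hApos.ne'
        · linarith
      have hSv : fS m v = fA m v * ‖ctr v‖ ^ 2 := by
        rw [lor, hmv, norm_smul, Real.norm_of_nonneg hvApos.le] at h9
        have : fA m v * (fA m v * ‖ctr v‖ ^ 2 - fS m v) = 0 := by linarith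
        rcases mul_eq_zero.1 this with h | h
        · exact absurd h hvApos.ne'
        · linarith
      have heq : fA m v • u = fA m u • v := by
        apply ext_of_coords
        · rw [map_smul, map_smul, smul_eq_mul, smul_eq_mul, mul_comm]
        · rw [map_smul, map_smul, smul_eq_mul, smul_eq_mul, hSu, hSv, h7]; ring
        · rw [map_smul, map_smul, hmu, hmv, h7, smul_smul, smul_smul, mul_comm]
      exact hvApos.ne' (hpar _ _ heq).1

/-- The vertices of a polytope with complete graph and all edges avoiding the sphere can be coloured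
with a bounded number of colours so that every colour class is pierced by one point. -/
theorem exists_colouring {X : Type*} [Finite X] [Nontrivial X] (g : X → E (m + 1))
    (hpar : ∀ x y, x ≠ y → ∀ r s : ℝ, r • g x = s • g y → r = 0 ∧ s = 0)
    (hpair : ∀ x y, x ≠ y → ∃ ℓ : E (m + 1) →ₗ[ℝ] ℝ, ℓ ≠ 0 ∧
      (∀ z ∈ ball (m + 1), ℓ z ≤ 0) ∧ ℓ (g x) = 0 ∧ ℓ (g y) = 0) :
    ∃ (C : X → Col m) (Λ : Col m → (E (m + 1) →ₗ[ℝ] ℝ)),
      (∀ c, ∀ z ∈ ball (m + 1), Λ c z ≤ 0) ∧ (∀ x, C x ≠ none → 0 < Λ (C x) (g x)) ∧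
      ∀ x y, C x = none → C y = none → x = y := by
  classical
  -- the balls
  let I := {x : X // 0 < fA m (g x) ∧ 0 < lor (g x)}
  let p : I → EuclideanSpace ℝ (Fin m) := fun i => ctr (g i.1)
  let ρ : I → ℝ := fun i => Real.sqrt (lor (g i.1) / fA m (g i.1) ^ 2)
  have hρ2 : ∀ i : I, 0 < lor (g i.1) / fA m (g i.1) ^ 2 := fun i =>
    div_pos i.2.2 (pow_pos i.2.1 2)
  have hρ : ∀ i, 0 < ρ i := fun i => Real.sqrt_pos.2 (hρ2 i)
  have hpairI : ∀ i j : I, dist (p i) (p j) ≤ ρ i + ρ j := by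
    intro i j
    by_cases hij : i = j
    · subst hij
      rw [dist_self]
      have := hρ i
      linarith
    · have hne : i.1 ≠ j.1 := fun h => hij (Subtype.ext h)
      obtain ⟨ℓ, hℓ0, hball, hi, hj⟩ := hpair _ _ hne
      obtain ⟨a, s, τ, ha, hs, has, hτ, hform⟩ := functional_coords hℓ0 hball
      rw [hform] at hi hj
      have hapos : 0 < a := by
        rcases ha.eq_or_lt with h | h
        · exfalso
          have ha0 : a = 0 := h.symm
          have hτ0 : τ = 0 := by
            rw [ha0, zero_mul] at hτ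
            have : ‖τ‖ ^ 2 = 0 := le_antisymm hτ (sq_nonneg _)
            exact norm_eq_zero.1 ((pow_eq_zero_iff two_ne_zero).1 this)
          have hs0 : s ≠ 0 := by
            rcases has with h | h
            · exact absurd ha0 h
            · exact h
          rw [ha0, hτ0] at hi
          simp only [inner_zero_left, zero_mul, zero_add, zero_sub] at hi
          have : s * fA m (g i.1) = 0 := by linarith
          rcases mul_eq_zero.1 this with h | h
          · exact hs0 h
          · exact i.2.1.ne' h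
        · exact h
      have h1 := centre_dist hapos i.2.1 hτ hi
      have h2 := centre_dist hapos j.2.1 hτ hj
      have h3 : ‖a⁻¹ • τ - p i‖ ≤ ρ i := Real.le_sqrt_of_sq_le h1
      have h4 : ‖a⁻¹ • τ - p j‖ ≤ ρ j := Real.le_sqrt_of_sq_le h2
      calc dist (p i) (p j) ≤ dist (p i) (a⁻¹ • τ) + dist (a⁻¹ • τ) (p j) := dist_triangle _ _ _
        _ = ‖a⁻¹ • τ - p i‖ + ‖a⁻¹ • τ - p j‖ := by
            rw [dist_comm (p i), dist_eq_norm, dist_eq_norm]
        _ ≤ ρ i + ρ j := add_le_add h3 h4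
  obtain ⟨q, hq⟩ := pierce_balls p ρ hρ hpairI
  -- the far points
  obtain ⟨R, hR⟩ : ∃ R : ℝ, ∀ x : X, ∀ k : Fin m, (mid m (g x)) k ≠ 0 →
      (|fS m (g x)| + 1) / |(mid m (g x)) k| ≤ R := by
    obtain ⟨R, hR⟩ := (Set.finite_range fun xk : X × Fin m =>
      (|fS m (g xk.1)| + 1) / |(mid m (g xk.1)) xk.2|).bddAbove
    exact ⟨R, fun x k _ => hR ⟨(x, k), rfl⟩⟩
  let Λ : Col m → (E (m + 1) →ₗ[ℝ] ℝ) := fun c => match c with
    | none => 0
    | some none => -fA m
    | some (some (Sum.inl (k, b))) =>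
        tangent ((if b then R else -R) • (EuclideanSpace.single k (1 : ℝ)))
    | some (some (Sum.inr z)) => tangent (q z.1)
  have hΛ : ∀ c, ∀ z ∈ ball (m + 1), Λ c z ≤ 0 := by
    intro c z hz
    match c with
    | none => simp [Λ]
    | some none => exact neg_fA_nonpos hz
    | some (some (Sum.inl (k, b))) => exact tangent_nonpos _ hz
    | some (some (Sum.inr w)) => exact tangent_nonpos _ hz
  have hcol : ∀ x : X, ∃ c : Col m, (c = none → Light (g x)) ∧ (c ≠ none → 0 < Λ c (g x)) := by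
    intro x
    rcases lt_or_ge (fA m (g x)) 0 with hA | hA
    · refine ⟨some none, by simp, fun _ => ?_⟩
      change 0 < (-fA m) (g x)
      rw [LinearMap.neg_apply]; linarith
    rcases le_or_gt (lor (g x)) 0 with hL | hL
    · exact ⟨none, fun _ => ⟨hA, hL⟩, fun h => absurd rfl h⟩
    rcases hA.eq_or_lt with hA0 | hApos
    · -- half-spaces
      have hmid : mid m (g x) ≠ 0 := by
        intro h
        rw [lor, h, ← hA0] at hL
        simp at hL
      obtain ⟨k, hk⟩ : ∃ k, (mid m (g x)) k ≠ 0 := by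
        by_contra hcon
        push Not at hcon
        exact hmid (by ext k; simpa using hcon k)
      refine ⟨some (some (Sum.inl (k, decide (0 < (mid m (g x)) k)))), by simp, fun _ => ?_⟩
      change 0 < tangent ((if decide (0 < (mid m (g x)) k) = true then R else -R) •
        (EuclideanSpace.single k (1 : ℝ))) (g x)
      have hRk := hR x k hk
      have habs : 0 < |(mid m (g x)) k| := abs_pos.2 hk
      rw [div_le_iff₀ habs] at hRk
      have hS := le_abs_self (fS m (g x))
      have hS' := abs_nonneg (fS m (g x))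
      rw [tangent_apply, ← hA0, mul_zero, zero_add, inner_smul_left, EuclideanSpace.inner_single_left]
      simp only [conj_trivial, one_mul, decide_eq_true_eq]
      split_ifs with hpos
      · rw [abs_of_pos hpos] at hRk
        linarith
      · have hneg : (mid m (g x)) k < 0 := lt_of_le_of_ne (not_lt.1 hpos) hk
        rw [abs_of_neg hneg] at hRk
        linarith
    · obtain ⟨z, hz, hzlt⟩ := hq ⟨x, hApos, hL⟩
      refine ⟨some (some (Sum.inr ⟨z, hz⟩)), by simp, fun _ => ?_⟩
      change 0 < tangent (q z) (g x)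
      rw [tangent_eq hApos]
      apply mul_pos (by linarith)
      have h1 : ‖q z - ctr (g x)‖ < Real.sqrt (lor (g x) / fA m (g x) ^ 2) := hzlt
      have h2 : ‖q z - ctr (g x)‖ ^ 2 < lor (g x) / fA m (g x) ^ 2 := by
        have h3 := pow_lt_pow_left₀ h1 (norm_nonneg _) two_ne_zero
        rwa [Real.sq_sqrt (hρ2 ⟨x, hApos, hL⟩).le] at h3
      linarith
  choose C hC1 hC2 using hcol
  refine ⟨C, Λ, hΛ, hC2, ?_⟩
  intro x y hx hy
  by_contra hne
  exact light_unique (hC1 x hx) (hC1 y hy) (hpar x y hne) (hpair x y hne)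

end Pool.Agent.H48
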