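import Mathlib

/-!
# Finitely generated pointed cones: extreme generators, faces, codimension of maximal faces
-/

namespace Pool.Agent.H48

open Module

variable {M : Type*} [AddCommGroup M] [Module ℝ M]

/-- The cone contains no line. -/
def NoLine (C : PointedCone ℝ M) : Prop := ∀ x ∈ C, -x ∈ C → x = 0

theorem nnsmul_mem {C : PointedCone ℝ M} {r : ℝ} (hr : 0 ≤ r) {x : M} (hx : x ∈ C) : r • x ∈ C :=
  C.smul_mem hr hx

theorem mem_hull_singleton {g x : M} :
    x ∈ PointedCone.hull ℝ ({g} : Set M) ↔ ∃ r : ℝ, 0 ≤ r ∧ x = r • g := by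
  rw [Submodule.mem_span_singleton]
  constructor
  · rintro ⟨r, rfl⟩
    exact ⟨r.1, r.2, rfl⟩
  · rintro ⟨r, hr, rfl⟩
    exact ⟨⟨r, hr⟩, rfl⟩

theorem mem_hull_finset {S : Finset M} {x : M} :
    x ∈ PointedCone.hull ℝ (S : Set M) ↔
      ∃ c : M → ℝ, (∀ h ∈ S, 0 ≤ c h) ∧ x = ∑ h ∈ S, c h • h := by
  rw [Submodule.mem_span_finset]
  constructor
  · rintro ⟨f, -, rfl⟩
    exact ⟨fun h => (f h).1, fun h _ => (f h).2, rfl⟩
  · rintro ⟨c, hc, rfl⟩
    classical
    refine ⟨fun h => if hh : h ∈ S then ⟨c h, hc h hh⟩ else 0, ?_, ?_⟩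
    · intro h hh
      by_contra hcon
      simp only [Function.mem_support] at hh
      apply hh
      rw [dif_neg]
      simpa using hcon
    · refine Finset.sum_congr rfl fun h hh => ?_
      simp only [hh, dite_true]
      rfl

theorem exists_extreme_generators (C : PointedCone ℝ M) (hfg : C.FG) (hp : NoLine C) :
    ∃ S : Finset M, (0 : M) ∉ S ∧ PointedCone.hull ℝ (S : Set M) = C ∧
      ∀ g ∈ S, (PointedCone.hull ℝ ({g} : Set M)).IsFaceOf C := by
  classical
  -- a generating set of minimal cardinality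
  have hex : ∃ n : ℕ, ∃ S : Finset M, S.card = n ∧ PointedCone.hull ℝ (S : Set M) = C := by
    obtain ⟨S, hS⟩ := hfg
    exact ⟨S.card, S, rfl, hS⟩
  obtain ⟨S, hScard, hS⟩ := Nat.find_spec hex
  have hmin : ∀ T : Finset M, PointedCone.hull ℝ (T : Set M) = C → S.card ≤ T.card := by
    intro T hT
    rw [hScard]
    exact Nat.find_min' hex ⟨T, rfl, hT⟩
  -- no generator lies in the hull of the others
  have hred : ∀ g ∈ S, g ∉ PointedCone.hull ℝ ((S.erase g : Finset M) : Set M) := by
    intro g hg hmem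
    have h1 : PointedCone.hull ℝ ((S.erase g : Finset M) : Set M) = C := by
      apply le_antisymm
      · rw [← hS]
        apply Submodule.span_mono
        intro x hx
        exact Finset.mem_of_mem_erase hx
      · rw [← hS]
        apply Submodule.span_le.2
        intro x hx
        by_cases hxg : x = g
        · subst hxg; exact hmem
        · exact Submodule.subset_span (Finset.mem_coe.2 (Finset.mem_erase.2 ⟨hxg, hx⟩))
    have h2 := hmin _ h1
    have h3 := Finset.card_erase_lt_of_mem hg
    omega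
  have hsplit : ∀ g ∈ S, ∀ x ∈ C, ∃ r : ℝ, 0 ≤ r ∧
      ∃ y ∈ PointedCone.hull ℝ ((S.erase g : Finset M) : Set M), x = r • g + y := by
    intro g hg x hx
    rw [← hS, ← Finset.insert_erase hg, Finset.coe_insert, PointedCone.hull,
      Submodule.mem_span_insert] at hx
    obtain ⟨r, z, hz, rfl⟩ := hx
    exact ⟨r.1, r.2, z, hz, rfl⟩
  have hDC : ∀ g, PointedCone.hull ℝ ((S.erase g : Finset M) : Set M) ≤ C := by
    intro g
    rw [← hS]
    apply Submodule.span_mono
    intro x hx
    exact Finset.mem_of_mem_erase hx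
  refine ⟨S, ?_, hS, ?_⟩
  · intro h0
    exact hred 0 h0 (Submodule.zero_mem _)
  · intro g hg
    have hgC : g ∈ C := by rw [← hS]; exact Submodule.subset_span hg
    refine ⟨?_, ?_⟩
    · apply Submodule.span_le.2
      rintro x rfl
      exact hgC
    · intro x y a hx hy ha hxy
      obtain ⟨α, hα, x', hx', rfl⟩ := hsplit g hg x hx
      obtain ⟨β, hβ, y', hy', rfl⟩ := hsplit g hg y hy
      obtain ⟨c, hc, hceq⟩ := mem_hull_singleton.1 hxy
      have hz : a • x' + y' ∈ PointedCone.hull ℝ ((S.erase g : Finset M) : Set M) :=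
        Submodule.add_mem _ (nnsmul_mem ha.le hx') hy'
      have hzeq : a • x' + y' = (c - a * α - β) • g := by
        have : a • x' + y' = c • g - (a * α) • g - β • g := by
          rw [← hceq]
          module
        rw [this]; module
      rcases lt_or_ge 0 (c - a * α - β) with hpos | hneg
      · exfalso
        apply hred g hg
        have := nnsmul_mem (inv_nonneg.2 hpos.le) hz
        rw [hzeq, smul_smul, inv_mul_cancel₀ hpos.ne', one_smul] at this
        exact this
      · have hz0 : a • x' + y' = 0 := by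
          apply hp _ (hDC g hz)
          rw [hzeq, ← neg_smul]
          exact nnsmul_mem (by linarith) hgC
        have hx0 : a • x' = 0 := by
          apply hp _ (nnsmul_mem ha.le (hDC g hx'))
          have : -(a • x') = y' := by
            rw [neg_eq_iff_add_eq_zero]; exact hz0
          rw [this]
          exact hDC g hy'
        have hx0' : x' = 0 := by
          rcases smul_eq_zero.1 hx0 with h | h
          · exact absurd h ha.ne'
          · exact h
        subst hx0'
        rw [add_zero]
        exact mem_hull_singleton.2 ⟨α, hα, rfl⟩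

/-- A face of `hull S` is generated by the elements of `S` it contains. -/
theorem face_eq_hull_inter {S : Finset M} {C F : PointedCone ℝ M}
    (hS : PointedCone.hull ℝ (S : Set M) = C) (hF : F.IsFaceOf C) {x : M} (hx : x ∈ F) :
    x ∈ PointedCone.hull ℝ {g : M | g ∈ S ∧ g ∈ F} := by
  classical
  have hxC := hF.le hx
  rw [← hS] at hxC
  obtain ⟨c, hc, hxe⟩ := mem_hull_finset.1 hxC
  have hSC : ∀ g ∈ S, g ∈ C := by
    intro g hg; rw [← hS]; exact Submodule.subset_span hg
  rw [hxe]
  refine Submodule.sum_mem _ fun g hg => ?_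
  rcases (hc g hg).eq_or_lt with h0 | h0
  · rw [← h0, zero_smul]; exact Submodule.zero_mem _
  · apply nnsmul_mem h0.le
    apply Submodule.subset_span
    refine ⟨hg, ?_⟩
    have hsum : c g • g + ∑ h ∈ S.erase g, c h • h ∈ F := by
      rw [Finset.add_sum_erase S (fun h => c h • h) hg, ← hxe]
      exact hx
    refine hF.mem_of_smul_add_mem (a := c g) (hSC g hg) ?_ h0 hsum
    refine Submodule.sum_mem _ fun h hh => ?_
    have hh' := Finset.mem_of_mem_erase hh
    exact nnsmul_mem (hc h hh') (hSC h hh')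

/-- A face spanning the whole space of a full-dimensional cone is the whole cone. -/
theorem face_eq_top_of_span {C F : PointedCone ℝ M} (hF : F.IsFaceOf C)
    (hspan : Submodule.span ℝ (F : Set M) = ⊤) : F = C := by
  apply le_antisymm hF.le
  intro x hx
  have hx' : x ∈ Submodule.span ℝ (F : Set M) := by rw [hspan]; trivial
  -- every element of the span of a cone is a difference of two elements
  have key : ∀ z ∈ Submodule.span ℝ (F : Set M), ∃ u ∈ F, ∃ v ∈ F, z = u - v := by
    intro z hz
    induction hz using Submodule.span_induction with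
    | mem z hz => exact ⟨z, hz, 0, Submodule.zero_mem _, by simp⟩
    | zero => exact ⟨0, Submodule.zero_mem _, 0, Submodule.zero_mem _, by simp⟩
    | add a b _ _ ha hb =>
      obtain ⟨u, hu, v, hv, rfl⟩ := ha
      obtain ⟨u', hu', v', hv', rfl⟩ := hb
      exact ⟨u + u', F.add_mem hu hu', v + v', F.add_mem hv hv', by abel⟩
    | smul r a _ ha =>
      obtain ⟨u, hu, v, hv, rfl⟩ := ha
      rcases le_total 0 r with hr | hr
      · exact ⟨r • u, nnsmul_mem hr hu, r • v, nnsmul_mem hr hv, by rw [smul_sub]⟩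
      · refine ⟨(-r) • v, nnsmul_mem (by linarith) hv, (-r) • u, nnsmul_mem (by linarith) hu, ?_⟩
        module
  obtain ⟨u, hu, v, hv, huv⟩ := key x hx'
  refine hF.mem_of_add_mem_left hx (hF.le hv) ?_
  rw [huv, sub_add_cancel]
  exact hu

theorem span_cone_eq_sub {F : PointedCone ℝ M} {z : M}
    (hz : z ∈ Submodule.span ℝ (F : Set M)) : ∃ u ∈ F, ∃ v ∈ F, z = u - v := by
  induction hz using Submodule.span_induction with
  | mem z hz => exact ⟨z, hz, 0, Submodule.zero_mem _, by simp⟩
  | zero => exact ⟨0, Submodule.zero_mem _, 0, Submodule.zero_mem _, by simp⟩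
  | add a b _ _ ha hb =>
    obtain ⟨u, hu, v, hv, rfl⟩ := ha
    obtain ⟨u', hu', v', hv', rfl⟩ := hb
    exact ⟨u + u', F.add_mem hu hu', v + v', F.add_mem hv hv', by abel⟩
  | smul r a _ ha =>
    obtain ⟨u, hu, v, hv, rfl⟩ := ha
    rcases le_total 0 r with hr | hr
    · exact ⟨r • u, nnsmul_mem hr hu, r • v, nnsmul_mem hr hv, by rw [smul_sub]⟩
    · refine ⟨(-r) • v, nnsmul_mem (by linarith) hv, (-r) • u, nnsmul_mem (by linarith) hu, ?_⟩
      module

/-- A proper face with nothing strictly between it and the cone has codimension one. -/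
theorem finrank_of_maximal_face [FiniteDimensional ℝ M] {C F : PointedCone ℝ M} (hfg : C.FG)
    (hfull : Submodule.span ℝ (C : Set M) = ⊤) (hF : F.IsFaceOf C) (hne : F ≠ C)
    (hmax : ∀ G : PointedCone ℝ M, G.IsFaceOf C → F ≤ G → G = F ∨ G = C) :
    finrank ℝ (Submodule.span ℝ (F : Set M)) + 1 = finrank ℝ M := by
  set V : Submodule ℝ M := Submodule.span ℝ (F : Set M) with hV
  have hVtop : V ≠ ⊤ := fun h => hne (face_eq_top_of_span hF h)
  have hlt : finrank ℝ V < finrank ℝ M := Submodule.finrank_lt hVtop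
  by_contra hcon
  have hquot : 2 ≤ finrank ℝ (M ⧸ V) := by
    have := Submodule.finrank_quotient_add_finrank V
    omega
  -- the image cone
  set π : M →ₗ[ℝ] M ⧸ V := V.mkQ with hπ
  set D : PointedCone ℝ (M ⧸ V) := C.map π with hD
  have hDfg : D.FG := Submodule.FG.map _ hfg
  have hDp : NoLine D := by
    intro z hz hz'
    obtain ⟨x, hx, rfl⟩ := PointedCone.mem_map.1 hz
    obtain ⟨y, hy, hyx⟩ := PointedCone.mem_map.1 hz'
    have hxy : x + y ∈ V := by
      have : π (x + y) = 0 := by rw [map_add, hyx]; simp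
      rwa [hπ, Submodule.mkQ_apply, Submodule.Quotient.mk_eq_zero] at this
    obtain ⟨u, hu, v, hv, huv⟩ := span_cone_eq_sub (hV ▸ hxy)
    have h1 : x + (y + v) ∈ F := by
      have : x + (y + v) = u := by rw [← add_assoc, huv]; abel
      rw [this]; exact hu
    have hxF : x ∈ F := hF.mem_of_add_mem_left hx (C.add_mem hy (hF.le hv)) h1
    rw [hπ, Submodule.mkQ_apply, Submodule.Quotient.mk_eq_zero]
    exact Submodule.subset_span hxF
  obtain ⟨S, hS0, hSD, hSf⟩ := exists_extreme_generators D hDfg hDp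
  -- `S` is nonempty
  have hspanD : Submodule.span ℝ (D : Set (M ⧸ V)) = ⊤ := by
    rw [hD, PointedCone.coe_map, ← Submodule.map_span, hfull, Submodule.map_top, hπ,
      Submodule.range_mkQ]
  have hSne : S.Nonempty := by
    by_contra hemp
    rw [Finset.not_nonempty_iff_eq_empty] at hemp
    have hDbot : D = ⊥ := by
      rw [← hSD, hemp]; simp [PointedCone.hull]
    have : (⊤ : Submodule ℝ (M ⧸ V)) = ⊥ := by
      rw [← hspanD, hDbot]
      simp
    have h2 : finrank ℝ (M ⧸ V) = 0 := by
      rw [← finrank_top ℝ (M ⧸ V), this]; simp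
    omega
  obtain ⟨g, hg⟩ := hSne
  have hg0 : g ≠ 0 := fun h => hS0 (h ▸ hg)
  have hgD : g ∈ D := by rw [← hSD]; exact Submodule.subset_span hg
  obtain ⟨c, hcC, hcg⟩ := PointedCone.mem_map.1 hgD
  let R : PointedCone ℝ (M ⧸ V) := PointedCone.hull ℝ {g}
  have hR : R.IsFaceOf D := hSf g hg
  let G : PointedCone ℝ M := C ⊓ R.comap π
  have hG : G.IsFaceOf C := by
    refine ⟨inf_le_left, ?_⟩
    intro x y a hx hy ha hxy
    refine ⟨hx, ?_⟩
    have h1 : π (a • x + y) ∈ R := hxy.2
    rw [map_add, map_smul] at h1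
    exact hR.mem_of_smul_add_mem (PointedCone.mem_map.2 ⟨x, hx, rfl⟩)
      (PointedCone.mem_map.2 ⟨y, hy, rfl⟩) ha h1
  have hπF : ∀ x ∈ F, π x = 0 := by
    intro x hx
    rw [hπ, Submodule.mkQ_apply, Submodule.Quotient.mk_eq_zero]
    exact Submodule.subset_span hx
  have hFG : F ≤ G := by
    intro x hx
    refine ⟨hF.le hx, ?_⟩
    change π x ∈ R
    rw [hπF x hx]
    exact Submodule.zero_mem _
  rcases hmax G hG hFG with h | h
  · -- `G = F` is impossible
    have hcG : c ∈ G := by
      refine ⟨hcC, ?_⟩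
      change π c ∈ R
      rw [hcg]
      exact Submodule.subset_span rfl
    rw [h] at hcG
    exact hg0 (by rw [← hcg]; exact hπF c hcG)
  · -- `G = C` is impossible
    have hsub : (D : Set (M ⧸ V)) ⊆ Submodule.span ℝ {g} := by
      rintro z hz
      obtain ⟨x, hx, rfl⟩ := PointedCone.mem_map.1 hz
      have hxG : x ∈ G := by rw [h]; exact hx
      have h3 : π x ∈ R := hxG.2
      obtain ⟨r, -, hr⟩ := mem_hull_singleton.1 h3
      rw [hr]
      exact Submodule.smul_mem _ _ (Submodule.mem_span_singleton_self g)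
    have htop : (⊤ : Submodule ℝ (M ⧸ V)) ≤ Submodule.span ℝ {g} := by
      rw [← hspanD]; exact Submodule.span_le.2 hsub
    have h4 : finrank ℝ (M ⧸ V) ≤ 1 := by
      rw [← finrank_top ℝ (M ⧸ V)]
      calc finrank ℝ (⊤ : Submodule ℝ (M ⧸ V)) ≤ finrank ℝ (Submodule.span ℝ {g}) :=
            Submodule.finrank_mono htop
        _ ≤ 1 := by simpa using finrank_span_le_card (R := ℝ) ({g} : Set (M ⧸ V))
    omega

end Pool.Agent.H48
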