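import Mathlib

/-!
# Generic weights and the planar grid configuration
-/

namespace Pool.Agent.H48

open Combinatorics Filter Topology

variable {ι : Type*} [Fintype ι] {d : ℕ}

/-- Weights whose products satisfy no integer linear relation. -/
structure GenericPair (α β : ι → ℝ) : Prop where
  prod : ∀ c : ι → ι → ℤ, ∑ j, ∑ k, (c j k : ℝ) * (α j * β k) = 0 → ∀ j k, c j k = 0
  sngl : ∀ c : ι → ℤ, ∑ k, (c k : ℝ) * β k = 0 → ∀ k, c k = 0

theorem exists_genericPair (ι : Type*) [Fintype ι] : ∃ α β : ι → ℝ, GenericPair α β := by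
  classical
  set n := Fintype.card ι with hn
  let e : ι ≃ Fin n := Fintype.equivFin ι
  let t : ℝ := liouvilleNumber ((2 : ℕ) : ℝ)
  have ht : Transcendental ℤ t := transcendental_liouvilleNumber le_rfl
  have hinj : ∀ j k j' k' : ι, (e j : ℕ) + n * (e k : ℕ) = (e j' : ℕ) + n * (e k' : ℕ) →
      j = j' ∧ k = k' := by
    intro j k j' k' h
    have hj := (e j).2
    have hj' := (e j').2
    have h1 : (e j : ℕ) = (e j' : ℕ) := by
      have := congrArg (· % n) h
      simpa [Nat.add_mul_mod_self_left, Nat.mod_eq_of_lt hj, Nat.mod_eq_of_lt hj'] using this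
    have h2 : (e k : ℕ) = (e k' : ℕ) := by
      have h3 : n * (e k : ℕ) = n * (e k' : ℕ) := by omega
      exact Nat.eq_of_mul_eq_mul_left (by omega) h3
    exact ⟨e.injective (Fin.ext h1), e.injective (Fin.ext h2)⟩
  have hprod : ∀ c : ι → ι → ℤ,
      ∑ j, ∑ k, (c j k : ℝ) * (t ^ (e j : ℕ) * t ^ (n * (e k : ℕ))) = 0 → ∀ j k, c j k = 0 := by
    intro c hc j₀ k₀
    let P : Polynomial ℤ := ∑ j, ∑ k, Polynomial.monomial ((e j : ℕ) + n * (e k : ℕ)) (c j k)
    have haev : Polynomial.aeval t P = 0 := by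
      simp only [P, map_sum, Polynomial.aeval_monomial]
      rw [← hc]
      refine Finset.sum_congr rfl fun j _ => Finset.sum_congr rfl fun k _ => ?_
      rw [pow_add]
      simp
    have hP : P = 0 := by
      by_contra hne
      exact ht ⟨P, hne, haev⟩
    have hcoef : P.coeff ((e j₀ : ℕ) + n * (e k₀ : ℕ)) = c j₀ k₀ := by
      simp only [P, Polynomial.finsetSum_coeff, Polynomial.coeff_monomial]
      rw [Finset.sum_eq_single j₀, Finset.sum_eq_single k₀]
      · simp
      · intro k _ hk
        rw [if_neg]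
        intro h
        exact hk (hinj _ _ _ _ h).2
      · intro h; exact absurd (Finset.mem_univ _) h
      · intro j _ hj
        apply Finset.sum_eq_zero
        intro k _
        rw [if_neg]
        intro h
        exact hj (hinj _ _ _ _ h).1
      · intro h; exact absurd (Finset.mem_univ _) h
    rw [← hcoef, hP, Polynomial.coeff_zero]
  refine ⟨fun j => t ^ (e j : ℕ), fun k => t ^ (n * (e k : ℕ)), hprod, ?_⟩
  intro c hc k₀
  have := hprod (fun j k => if j = k₀ then c k else 0) ?_ k₀ k₀
  · simpa using this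
  · rw [Finset.sum_eq_single k₀]
    · have h1 : ∑ k, (((if k₀ = k₀ then c k else 0 : ℤ)) : ℝ) *
          (t ^ (e k₀ : ℕ) * t ^ (n * (e k : ℕ))) =
          t ^ (e k₀ : ℕ) * ∑ k, (c k : ℝ) * t ^ (n * (e k : ℕ)) := by
        rw [Finset.mul_sum]
        refine Finset.sum_congr rfl fun k _ => ?_
        simp only [if_true]
        ring
      rw [h1, hc, mul_zero]
    · intro j _ hj
      apply Finset.sum_eq_zero
      intro k _
      simp [hj]
    · intro h; exact absurd (Finset.mem_univ _) h

/-- The coordinates `1, …, d` of a grid point, as integers. -/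
def zc (x : ι → Fin d) (j : ι) : ℤ := (x j : ℤ) + 1

/-- A linear function of the grid point. -/
noncomputable def lin (w : ι → ℝ) (x : ι → Fin d) : ℝ := ∑ j, w j * (zc x j : ℝ)

/-- Power sums. -/
noncomputable def pw (k : ℕ) (x : ι → Fin d) : ℝ := ∑ j, (zc x j : ℝ) ^ k

omit [Fintype ι] in
theorem zc_pos (x : ι → Fin d) (j : ι) : 0 < (zc x j : ℝ) := by
  have : (0 : ℤ) < zc x j := by unfold zc; positivity
  exact_mod_cast this

omit [Fintype ι] in
theorem zc_injective {x y : ι → Fin d} (h : ∀ j, zc x j = zc y j) : x = y := by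
  funext j
  have := h j
  unfold zc at this
  exact Fin.ext (by exact_mod_cast (by linarith : (x j : ℤ) = (y j : ℤ)))

theorem lin_sub (w : ι → ℝ) (x y : ι → Fin d) :
    lin w y - lin w x = ∑ j, w j * ((zc y j - zc x j : ℤ) : ℝ) := by
  unfold lin
  rw [← Finset.sum_sub_distrib]
  refine Finset.sum_congr rfl fun j _ => ?_
  push_cast
  ring

theorem lin_injective {α β : ι → ℝ} (hg : GenericPair α β) {x y : ι → Fin d}
    (h : lin β x = lin β y) : x = y := by
  have h1 : ∑ k, ((zc y k - zc x k : ℤ) : ℝ) * β k = 0 := by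
    have h2 := lin_sub β x y
    rw [h, sub_self] at h2
    rw [h2]
    exact Finset.sum_congr rfl fun j _ => mul_comm _ _
  have h3 := hg.sngl (fun k => zc y k - zc x k) h1
  exact zc_injective fun j => by have := h3 j; omega

/-- The product expansion of a difference of products of linear forms. -/
theorem det_expand (α β : ι → ℝ) (u w u' w' : ι → ℤ) :
    (∑ j, α j * (u j : ℝ)) * (∑ k, β k * (w k : ℝ)) -
      (∑ j, α j * (w' j : ℝ)) * (∑ k, β k * (u' k : ℝ)) =
    ∑ j, ∑ k, ((u j * w k - w' j * u' k : ℤ) : ℝ) * (α j * β k) := by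
  rw [Finset.sum_mul_sum, Finset.sum_mul_sum, ← Finset.sum_sub_distrib]
  refine Finset.sum_congr rfl fun j _ => ?_
  rw [← Finset.sum_sub_distrib]
  refine Finset.sum_congr rfl fun k _ => ?_
  push_cast
  ring

/-- The first coordinate of the perturbed planar configuration. -/
noncomputable def fa (α : ι → ℝ) (ε : ℝ) (x : ι → Fin d) : ℝ := lin α x + ε * pw 3 x

/-- The collinearity determinant. -/
noncomputable def det3 (α β : ι → ℝ) (ε : ℝ) (x y z : ι → Fin d) : ℝ :=
  (fa α ε z - fa α ε x) * (lin β y - lin β x) - (fa α ε y - fa α ε x) * (lin β z - lin β x)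

/-- No three points of the perturbed configuration are collinear. -/
theorem eventually_det3_ne {α β : ι → ℝ} (hg : GenericPair α β) {x y z : ι → Fin d}
    (hxy : x ≠ y) (hxz : x ≠ z) (hyz : y ≠ z) :
    ∀ᶠ ε in 𝓝[>] (0 : ℝ), det3 α β ε x y z ≠ 0 := by
  set u : ι → ℤ := fun j => zc y j - zc x j with hu
  set w : ι → ℤ := fun j => zc z j - zc x j with hw
  set D0 : ℝ := (lin α z - lin α x) * (lin β y - lin β x) -
    (lin α y - lin α x) * (lin β z - lin β x) with hD0
  set D1 : ℝ := (pw 3 z - pw 3 x) * (lin β y - lin β x) -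
    (pw 3 y - pw 3 x) * (lin β z - lin β x) with hD1
  have hdet : ∀ ε, det3 α β ε x y z = D0 + ε * D1 := by
    intro ε; simp only [det3, fa, hD0, hD1]; ring
  by_cases h0 : D0 = 0
  · -- collinear in the grid: the cubic perturbation separates
    have hrel : ∀ j k, w j * u k - u j * w k = 0 := by
      apply hg.prod
      rw [← det_expand α β w u w u, ← h0, hD0, lin_sub, lin_sub, lin_sub, lin_sub]
    obtain ⟨k₀, hk₀⟩ : ∃ k, u k ≠ 0 := by
      by_contra hcon
      push Not at hcon
      exact hxy (zc_injective fun j => by have := hcon j; simp only [hu] at this; omega)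
    have hwk : w k₀ ≠ 0 := by
      intro h
      apply hxz
      apply zc_injective
      intro j
      have h1 := hrel j k₀
      rw [h, mul_zero, sub_zero] at h1
      rcases mul_eq_zero.1 h1 with h2 | h2
      · simp only [hw] at h2; omega
      · exact absurd h2 hk₀
    have huw : u k₀ ≠ w k₀ := by
      intro h
      apply hyz
      apply zc_injective
      intro j
      have h1 := hrel j k₀
      rw [← h, ← sub_mul] at h1
      rcases mul_eq_zero.1 h1 with h2 | h2
      · simp only [hw, hu] at h2; omega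
      · exact absurd h2 hk₀
    have hB : lin β y - lin β x ≠ 0 := by
      intro h
      exact hxy (lin_injective hg (sub_eq_zero.1 h)).symm
    have hrelR : ∀ j, (w j : ℝ) * (u k₀ : ℝ) = (u j : ℝ) * (w k₀ : ℝ) := by
      intro j
      have := hrel j k₀
      have h2 : w j * u k₀ = u j * w k₀ := by linarith
      exact_mod_cast h2
    have hbz : (u k₀ : ℝ) * (lin β z - lin β x) = (w k₀ : ℝ) * (lin β y - lin β x) := by
      rw [lin_sub, lin_sub, Finset.mul_sum, Finset.mul_sum]
      refine Finset.sum_congr rfl fun j _ => ?_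
      have := hrelR j
      simp only [hu, hw] at this ⊢
      linear_combination β j * this
    have hpw : (u k₀ : ℝ) * ((u k₀ : ℝ) * (pw 3 z - pw 3 x) - (w k₀ : ℝ) * (pw 3 y - pw 3 x)) =
        (w k₀ : ℝ) * ((w k₀ : ℝ) - (u k₀ : ℝ)) *
          ∑ j, (u j : ℝ) ^ 2 * ((zc x j : ℝ) + (zc y j : ℝ) + (zc z j : ℝ)) := by
      unfold pw
      rw [← Finset.sum_sub_distrib, ← Finset.sum_sub_distrib, Finset.mul_sum, Finset.mul_sum,
        ← Finset.sum_sub_distrib, Finset.mul_sum, Finset.mul_sum]
      refine Finset.sum_congr rfl fun j _ => ?_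
      have hj := hrelR j
      have hy : (zc y j : ℝ) = (zc x j : ℝ) + (u j : ℝ) := by simp only [hu]; push_cast; ring
      have hz : (zc z j : ℝ) = (zc x j : ℝ) + (w j : ℝ) := by simp only [hw]; push_cast; ring
      rw [hy, hz]
      set X := (zc x j : ℝ)
      set U := (u j : ℝ)
      set W := (w j : ℝ)
      set p := (u k₀ : ℝ)
      set q := (w k₀ : ℝ)
      linear_combination
        (3 * X ^ 2 * p + 3 * X * (W * p + U * q) + W * (W * p + U * q) + q * U ^ 2) * hj
    have hsumpos : 0 < ∑ j, (u j : ℝ) ^ 2 * ((zc x j : ℝ) + (zc y j : ℝ) + (zc z j : ℝ)) := by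
      apply Finset.sum_pos'
      · intro j _
        have h1 := zc_pos x j
        have h2 := zc_pos y j
        have h3 := zc_pos z j
        positivity
      · refine ⟨k₀, Finset.mem_univ _, ?_⟩
        have h1 := zc_pos x k₀
        have h2 := zc_pos y k₀
        have h3 := zc_pos z k₀
        have h4 : (u k₀ : ℝ) ≠ 0 := by exact_mod_cast hk₀
        positivity
    have hD1ne : D1 ≠ 0 := by
      intro hD
      have hk₀R : (u k₀ : ℝ) ≠ 0 := by exact_mod_cast hk₀
      have hwkR : (w k₀ : ℝ) ≠ 0 := by exact_mod_cast hwk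
      have huwR : (w k₀ : ℝ) - (u k₀ : ℝ) ≠ 0 := by
        rw [sub_ne_zero]; exact_mod_cast huw.symm
      have e1 : (lin β y - lin β x) *
          ((u k₀ : ℝ) * (pw 3 z - pw 3 x) - (w k₀ : ℝ) * (pw 3 y - pw 3 x)) = 0 := by
        rw [hD1] at hD
        linear_combination (u k₀ : ℝ) * hD + (pw 3 y - pw 3 x) * hbz
      rcases mul_eq_zero.1 e1 with h1 | h1
      · exact hB h1
      · rw [h1, mul_zero] at hpw
        exact (mul_ne_zero (mul_ne_zero hwkR huwR) hsumpos.ne') hpw.symm
    filter_upwards [self_mem_nhdsWithin] with ε hε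
    rw [hdet, h0, zero_add]
    exact mul_ne_zero (ne_of_gt hε) hD1ne
  · -- not collinear in the grid
    have hcont : Continuous fun ε : ℝ => D0 + ε * D1 := by fun_prop
    have hlim : Tendsto (fun ε : ℝ => D0 + ε * D1) (𝓝[>] 0) (𝓝 D0) := by
      have h1 : Tendsto (fun ε : ℝ => D0 + ε * D1) (𝓝 0) (𝓝 (D0 + 0 * D1)) := hcont.tendsto 0
      rw [zero_mul, add_zero] at h1
      exact h1.mono_left nhdsWithin_le_nhds
    filter_upwards [hlim.eventually_ne h0] with ε hε
    rw [hdet]
    exact hε

end Pool.Agent.H48
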