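import Mathlib
import Pool.Agent.H48.ScribeDefs
import Pool.Agent.H48.Generic

/-!
# The Veronese-type configuration in which combinatorial lines are facets
-/

namespace Pool.Agent.H48

open Combinatorics Filter Topology Pool.Agent.Scribability

variable {ι : Type*} [Fintype ι] {d : ℕ}

/-- The fixed coordinates of a combinatorial line (zero on the active ones). -/
def fx (l : Line (Fin d) ι) (j : ι) : ℤ := match l.idxFun j with
  | none => 0
  | some y => (y : ℤ) + 1

/-- The indicator of the active coordinates. -/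
def act (l : Line (Fin d) ι) (j : ι) : ℤ := match l.idxFun j with
  | none => 1
  | some _ => 0

omit [Fintype ι] in
theorem zc_line (l : Line (Fin d) ι) (i : Fin d) (j : ι) :
    zc (l i) j = fx l j + act l j * ((i : ℤ) + 1) := by
  unfold zc fx act
  rw [Line.apply_def]
  rcases h : l.idxFun j with _ | y
  · simp [h]
  · simp [h]

omit [Fintype ι] in
theorem exists_act (l : Line (Fin d) ι) : ∃ j, act l j = 1 := by
  obtain ⟨j, hj⟩ := l.proper
  exact ⟨j, by unfold act; rw [hj]⟩

omit [Fintype ι] in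
theorem act_nonneg (l : Line (Fin d) ι) (j : ι) : (0 : ℝ) ≤ (act l j : ℝ) := by
  unfold act
  rcases l.idxFun j with _ | y <;> simp

/-- Number of active coordinates. -/
noncomputable def nS (l : Line (Fin d) ι) : ℝ := ∑ j, (act l j : ℝ)

theorem nS_pos (l : Line (Fin d) ι) : 0 < nS l := by
  obtain ⟨j, hj⟩ := exists_act l
  apply Finset.sum_pos'
  · intro j _; exact act_nonneg l j
  · exact ⟨j, Finset.mem_univ _, by rw [hj]; norm_num⟩

/-- Constant part and slope of a linear form along a line. -/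
noncomputable def lin0 (w : ι → ℝ) (l : Line (Fin d) ι) : ℝ := ∑ j, w j * (fx l j : ℝ)
noncomputable def lin1 (w : ι → ℝ) (l : Line (Fin d) ι) : ℝ := ∑ j, w j * (act l j : ℝ)
noncomputable def pw0 (k : ℕ) (l : Line (Fin d) ι) : ℝ := ∑ j, (fx l j : ℝ) ^ k

theorem lin_line (w : ι → ℝ) (l : Line (Fin d) ι) (i : Fin d) :
    lin w (l i) = lin0 w l + lin1 w l * ((i : ℝ) + 1) := by
  unfold lin lin0 lin1
  rw [Finset.sum_mul, ← Finset.sum_add_distrib]
  refine Finset.sum_congr rfl fun j _ => ?_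
  rw [zc_line]
  push_cast
  ring

theorem pw_line (k : ℕ) (hk : k ≠ 0) (l : Line (Fin d) ι) (i : Fin d) :
    pw k (l i) = pw0 k l + nS l * ((i : ℝ) + 1) ^ k := by
  unfold pw pw0 nS
  rw [Finset.sum_mul, ← Finset.sum_add_distrib]
  refine Finset.sum_congr rfl fun j _ => ?_
  rw [zc_line]
  unfold fx act
  rcases l.idxFun j with _ | y
  · simp [hk]
  · simp

theorem lin1_ne_zero {α β : ι → ℝ} (hg : GenericPair α β) (l : Line (Fin d) ι) :
    lin1 β l ≠ 0 := by
  intro h
  obtain ⟨j, hj⟩ := exists_act l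
  have := hg.sngl (act l) (by
    rw [← h]; unfold lin1
    exact Finset.sum_congr rfl fun j _ => mul_comm _ _) j
  omega

/-- The parameter along a line, extended to the whole grid. -/
noncomputable def tT (β : ι → ℝ) (l : Line (Fin d) ι) (z : ι → Fin d) : ℝ :=
  (lin β z - lin0 β l) / lin1 β l

/-- The (perturbed) equation of a line. -/
noncomputable def lam (α β : ι → ℝ) (l : Line (Fin d) ι) (ε : ℝ) (z : ι → Fin d) : ℝ :=
  fa α ε z - lin0 α l - ε * pw0 3 l - lin1 α l * tT β l z

theorem tT_line {α β : ι → ℝ} (hg : GenericPair α β) (l : Line (Fin d) ι) (i : Fin d) :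
    tT β l (l i) = (i : ℝ) + 1 := by
  unfold tT
  rw [lin_line, add_sub_cancel_left, mul_div_cancel_left₀ _ (lin1_ne_zero hg l)]

theorem lam_line {α β : ι → ℝ} (hg : GenericPair α β) (l : Line (Fin d) ι) (ε : ℝ) (i : Fin d) :
    lam α β l ε (l i) = ε * nS l * ((i : ℝ) + 1) ^ 3 := by
  unfold lam fa
  rw [tT_line hg, lin_line, pw_line 3 (by norm_num)]
  ring

theorem lam_zero_ne {α β : ι → ℝ} (hg : GenericPair α β) (l : Line (Fin d) ι) (z : ι → Fin d)
    (hz : ∀ i, l i ≠ z) : lam α β l 0 z ≠ 0 := by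
  intro h
  have hb := lin1_ne_zero hg l
  have hlin : ∀ w : ι → ℝ, lin w z - lin0 w l = ∑ j, w j * ((zc z j - fx l j : ℤ) : ℝ) := by
    intro w
    unfold lin lin0
    rw [← Finset.sum_sub_distrib]
    refine Finset.sum_congr rfl fun j _ => ?_
    push_cast
    ring
  have h1 : (lin α z - lin0 α l) * lin1 β l - lin1 α l * (lin β z - lin0 β l) = 0 := by
    have h2 : lam α β l 0 z * lin1 β l = 0 := by rw [h, zero_mul]
    unfold lam fa tT at h2
    rw [← h2]
    field_simp
    ring
  rw [hlin, hlin] at h1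
  unfold lin1 at h1
  have h3 := hg.prod (fun j k => (zc z j - fx l j) * act l k - act l j * (zc z k - fx l k)) (by
    rw [← det_expand, h1])
  obtain ⟨k₀, hk₀⟩ := exists_act l
  have h4 : ∀ j, zc z j = fx l j + act l j * ((z k₀ : ℤ) + 1) := by
    intro j
    have h5 := h3 j k₀
    have h6 : fx l k₀ = 0 := by
      unfold fx act at *
      rcases hh : l.idxFun k₀ with _ | y
      · rfl
      · rw [hh] at hk₀; simp at hk₀
    rw [hk₀, h6] at h5
    unfold zc at h5 ⊢
    linarith
  apply hz (z k₀)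
  apply zc_injective
  intro j
  rw [zc_line, h4]

/-- The basic functions adapted to a line. -/
noncomputable def kf (α β : ι → ℝ) (l : Line (Fin d) ι) (ε : ℝ) : ℕ → (ι → Fin d) → ℝ
  | 0, _ => (ε * nS l) ^ 2
  | 1, z => (ε * nS l) ^ 2 * tT β l z
  | 2, z => (ε * nS l) ^ 2 * tT β l z ^ 2
  | 3, z => ε * nS l * lam α β l ε z
  | 4, z => ε * nS l * (tT β l z * lam α β l ε z)
  | (k + 5), z => (ε * nS l) ^ 2 * ((pw (k + 5) z - pw0 (k + 5) l) / nS l)

theorem kf_line {α β : ι → ℝ} (hg : GenericPair α β) (l : Line (Fin d) ι) (ε : ℝ) (k : ℕ)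
    (i : Fin d) : kf α β l ε k (l i) = (ε * nS l) ^ 2 * ((i : ℝ) + 1) ^ k := by
  match k with
  | 0 => simp [kf]
  | 1 => simp [kf, tT_line hg]
  | 2 => simp [kf, tT_line hg]
  | 3 => simp only [kf, lam_line hg]; ring
  | 4 => simp only [kf, lam_line hg, tT_line hg]; ring
  | (k + 5) =>
    simp only [kf]
    rw [pw_line (k + 5) (by omega), add_sub_cancel_left, mul_div_cancel_left₀ _ (nS_pos l).ne']

/-- Interpolation: every function on `Fin d` is a polynomial of degree `< d` in `i + 1`. -/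
theorem exists_interp (r : Fin d → ℝ) :
    ∃ c : ℕ → ℝ, ∀ i : Fin d, ∑ k ∈ Finset.range d, c k * ((i : ℝ) + 1) ^ k = r i := by
  classical
  let nodes : Fin d → ℝ := fun i => (i : ℝ) + 1
  have hinj : Set.InjOn nodes (Finset.univ : Finset (Fin d)) := by
    intro a _ b _ hab
    have : (a : ℝ) = (b : ℝ) := by simpa [nodes] using hab
    exact Fin.ext (by exact_mod_cast this)
  let P := Lagrange.interpolate Finset.univ nodes r
  have hev : ∀ i, P.eval (nodes i) = r i := fun i =>
    Lagrange.eval_interpolate_at_node r hinj (Finset.mem_univ i)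
  rcases Nat.eq_zero_or_pos d with h0 | hpos
  · subst h0
    exact ⟨0, fun i => i.elim0⟩
  have hdeg : P.natDegree < d := by
    have h1 := Lagrange.degree_interpolate_lt r hinj
    rw [Finset.card_univ, Fintype.card_fin] at h1
    by_cases hP : P = 0
    · rw [hP]; simpa using hpos
    · exact (Polynomial.natDegree_lt_iff_degree_lt hP).2 h1
  refine ⟨P.coeff, fun i => ?_⟩
  rw [← hev i, Polynomial.eval_eq_sum_range' hdeg]

/-- The supporting function of a line. -/
noncomputable def phi (α β : ι → ℝ) (c : ℕ → ℝ) (l : Line (Fin d) ι) (ε : ℝ)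
    (z : ι → Fin d) : ℝ :=
  lam α β l ε z ^ 2 - ∑ k ∈ Finset.range d, c k * kf α β l ε k z

theorem phi_line {α β : ι → ℝ} (hg : GenericPair α β) (l : Line (Fin d) ι) (ε : ℝ) (c : ℕ → ℝ)
    (hc : ∀ i : Fin d, ∑ k ∈ Finset.range d, c k * ((i : ℝ) + 1) ^ k = ((i : ℝ) + 1) ^ 6)
    (i : Fin d) : phi α β c l ε (l i) = 0 := by
  unfold phi
  rw [lam_line hg]
  have : ∑ k ∈ Finset.range d, c k * kf α β l ε k (l i) =
      (ε * nS l) ^ 2 * ∑ k ∈ Finset.range d, c k * ((i : ℝ) + 1) ^ k := by
    rw [Finset.mul_sum]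
    refine Finset.sum_congr rfl fun k _ => ?_
    rw [kf_line hg]
    ring
  rw [this, hc]
  ring

theorem continuous_lam (α β : ι → ℝ) (l : Line (Fin d) ι) (z : ι → Fin d) :
    Continuous fun ε => lam α β l ε z := by
  unfold lam fa
  fun_prop

theorem continuous_kf (α β : ι → ℝ) (l : Line (Fin d) ι) (z : ι → Fin d) (k : ℕ) :
    Continuous fun ε => kf α β l ε k z := by
  have := continuous_lam α β l z
  match k with
  | 0 => simp only [kf]; fun_prop
  | 1 => simp only [kf]; fun_prop
  | 2 => simp only [kf]; fun_prop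
  | 3 => simp only [kf]; fun_prop
  | 4 => simp only [kf]; fun_prop
  | (k + 5) => simp only [kf]; fun_prop

theorem kf_zero (α β : ι → ℝ) (l : Line (Fin d) ι) (z : ι → Fin d) (k : ℕ) :
    kf α β l 0 k z = 0 := by
  match k with
  | 0 => simp [kf]
  | 1 => simp [kf]
  | 2 => simp [kf]
  | 3 => simp [kf]
  | 4 => simp [kf]
  | (k + 5) => simp [kf]

theorem eventually_phi_pos {α β : ι → ℝ} (hg : GenericPair α β) (l : Line (Fin d) ι) (c : ℕ → ℝ)
    (z : ι → Fin d) (hz : ∀ i, l i ≠ z) : ∀ᶠ ε in 𝓝[>] (0 : ℝ), 0 < phi α β c l ε z := by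
  have hcont : Continuous fun ε => phi α β c l ε z := by
    unfold phi
    have h1 := continuous_lam α β l z
    have h2 := fun k => continuous_kf α β l z k
    refine (h1.pow 2).sub ?_
    exact continuous_finsetSum _ fun k _ => continuous_const.mul (h2 k)
  have hval : phi α β c l 0 z = lam α β l 0 z ^ 2 := by
    unfold phi
    simp [kf_zero]
  have hpos : 0 < phi α β c l 0 z := by
    rw [hval]
    have := lam_zero_ne hg l z hz
    positivity
  have : ∀ᶠ ε in 𝓝 (0 : ℝ), 0 < phi α β c l ε z :=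
    (hcont.tendsto 0).eventually (lt_mem_nhds hpos)
  exact this.filter_mono nhdsWithin_le_nhds

end Pool.Agent.H48
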