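import Mathlib
import Pool.Agent.H48.ScribeDefs
import Pool.Agent.H48.PolyCone
import Pool.Agent.H48.Config

/-!
# The polytope: exposed pairs, and combinatorial lines as simplex facets
-/

namespace Pool.Agent.H48

open Combinatorics Filter Topology Pool.Agent.Scribability Module

variable {ι : Type*} [Fintype ι] {d : ℕ}

/-- Coordinate functions. -/
noncomputable def cf (α β : ι → ℝ) (ε : ℝ) : ℕ → (ι → Fin d) → ℝ
  | 0, _ => 1
  | 1, x => fa α ε x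
  | 2, x => lin β x
  | 3, x => fa α ε x ^ 2
  | 4, x => fa α ε x * lin β x
  | 5, x => lin β x ^ 2
  | (k + 6), x => pw (k + 5) x

/-- The vertices. -/
noncomputable def vert (α β : ι → ℝ) (ε : ℝ) (x : ι → Fin d) : E d :=
  WithLp.toLp 2 (fun i : Fin (d + 1) => cf α β ε i x)

/-- Functions on the grid that are linear functionals of the vertices. -/
noncomputable def Rep (α β : ι → ℝ) (ε : ℝ) : Submodule ℝ ((ι → Fin d) → ℝ) :=
  LinearMap.range (LinearMap.pi (fun x : ι → Fin d =>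
    (LinearMap.applyₗ (vert α β ε x) : (E d →ₗ[ℝ] ℝ) →ₗ[ℝ] ℝ)))

theorem mem_Rep {α β : ι → ℝ} {ε : ℝ} {h : (ι → Fin d) → ℝ} :
    h ∈ Rep α β ε ↔ ∃ ℓ : E d →ₗ[ℝ] ℝ, ∀ x, ℓ (vert α β ε x) = h x := by
  unfold Rep
  rw [LinearMap.mem_range]
  constructor
  · rintro ⟨ℓ, rfl⟩
    exact ⟨ℓ, fun x => rfl⟩
  · rintro ⟨ℓ, hℓ⟩
    exact ⟨ℓ, funext fun x => hℓ x⟩

theorem cf_mem (α β : ι → ℝ) (ε : ℝ) {k : ℕ} (hk : k < d + 1) :
    (cf α β ε k : (ι → Fin d) → ℝ) ∈ Rep α β ε := by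
  rw [mem_Rep]
  exact ⟨(EuclideanSpace.proj (⟨k, hk⟩ : Fin (d + 1)) : E d →L[ℝ] ℝ).toLinearMap, fun x => rfl⟩

theorem quad_mem (hd : 5 ≤ d) (α β : ι → ℝ) (ε : ℝ) (c₀ c₁ c₂ c₃ c₄ c₅ : ℝ)
    {h : (ι → Fin d) → ℝ} (hh : ∀ x, h x = c₀ + c₁ * fa α ε x + c₂ * lin β x +
      c₃ * fa α ε x ^ 2 + c₄ * (fa α ε x * lin β x) + c₅ * lin β x ^ 2) :
    h ∈ Rep α β ε := by
  have e : h = c₀ • cf α β ε 0 + c₁ • cf α β ε 1 + c₂ • cf α β ε 2 + c₃ • cf α β ε 3 +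
      c₄ • cf α β ε 4 + c₅ • cf α β ε 5 := by
    funext x
    rw [hh]
    simp [cf]
  rw [e]
  have m := fun {k : ℕ} (hk : k < d + 1) => cf_mem (d := d) α β ε hk
  refine Submodule.add_mem _ (Submodule.add_mem _ (Submodule.add_mem _ (Submodule.add_mem _
    (Submodule.add_mem _ ?_ ?_) ?_) ?_) ?_) ?_
  all_goals exact Submodule.smul_mem _ _ (m (by omega))

theorem one_mem' (hd : 5 ≤ d) (α β : ι → ℝ) (ε : ℝ) :
    (fun _ => 1 : (ι → Fin d) → ℝ) ∈ Rep α β ε :=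
  quad_mem hd α β ε 1 0 0 0 0 0 (fun x => by ring)

theorem det3_sq_mem (hd : 5 ≤ d) (α β : ι → ℝ) (ε : ℝ) (x y : ι → Fin d) :
    (fun z => det3 α β ε x y z ^ 2 : (ι → Fin d) → ℝ) ∈ Rep α β ε := by
  -- `det3 = p * a(z) + q * b(z) + r`
  set B := lin β y - lin β x
  set A := fa α ε y - fa α ε x
  set r := -(fa α ε x * B) + A * lin β x
  refine quad_mem hd α β ε (r ^ 2) (2 * B * r) (-2 * A * r) (B ^ 2) (-2 * A * B) (A ^ 2) ?_
  intro z
  simp only [det3, r, A, B]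
  ring

theorem point_mem (hd : 5 ≤ d) (α β : ι → ℝ) (ε : ℝ) (x : ι → Fin d) :
    (fun z => (fa α ε z - fa α ε x) ^ 2 + (lin β z - lin β x) ^ 2 : (ι → Fin d) → ℝ) ∈
      Rep α β ε := by
  refine quad_mem hd α β ε (fa α ε x ^ 2 + lin β x ^ 2) (-2 * fa α ε x) (-2 * lin β x) 1 0 1 ?_
  intro z
  ring

theorem lam_eq (α β : ι → ℝ) (l : Line (Fin d) ι) (ε : ℝ) (z : ι → Fin d) :
    lam α β l ε z = fa α ε z - (lin1 α l / lin1 β l) * lin β z +
      (- lin0 α l - ε * pw0 3 l + (lin1 α l / lin1 β l) * lin0 β l) := by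
  unfold lam tT
  ring

theorem kf_mem (hd : 5 ≤ d) (α β : ι → ℝ) (l : Line (Fin d) ι) (ε : ℝ) {k : ℕ} (hk : k < d) :
    (kf α β l ε k : (ι → Fin d) → ℝ) ∈ Rep α β ε := by
  set N := ε * nS l with hN
  set β₁ := lin1 β l with hβ₁
  set β₀ := lin0 β l with hβ₀
  set γ := lin1 α l / lin1 β l with hγ
  set δ := - lin0 α l - ε * pw0 3 l + (lin1 α l / lin1 β l) * lin0 β l with hδ
  match k with
  | 0 =>
    refine quad_mem hd α β ε (N ^ 2) 0 0 0 0 0 (fun x => ?_)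
    simp only [kf, ← hN]; ring
  | 1 =>
    refine quad_mem hd α β ε (N ^ 2 * (-β₀ / β₁)) 0 (N ^ 2 / β₁) 0 0 0 (fun x => ?_)
    simp only [kf, ← hN, tT, ← hβ₁, ← hβ₀]; ring
  | 2 =>
    refine quad_mem hd α β ε (N ^ 2 * (β₀ ^ 2 / β₁ ^ 2)) 0 (N ^ 2 * (-2 * β₀ / β₁ ^ 2)) 0 0
      (N ^ 2 / β₁ ^ 2) (fun x => ?_)
    simp only [kf, ← hN, tT, ← hβ₁, ← hβ₀]; ring
  | 3 =>
    refine quad_mem hd α β ε (N * δ) N (-N * γ) 0 0 0 (fun x => ?_)
    simp only [kf, ← hN, lam_eq, ← hγ, ← hδ]; ring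
  | 4 =>
    refine quad_mem hd α β ε (N * (-β₀ / β₁) * δ) (N * (-β₀ / β₁))
      (N * (-β₀ / β₁) * (-γ) + N * δ / β₁) 0 (N / β₁) (-N * γ / β₁) (fun x => ?_)
    simp only [kf, ← hN, lam_eq, tT, ← hβ₁, ← hβ₀, ← hγ, ← hδ]; ring
  | (k + 5) =>
    have e : (kf α β l ε (k + 5) : (ι → Fin d) → ℝ) =
        (N ^ 2 / nS l) • cf α β ε (k + 6) + (- N ^ 2 * pw0 (k + 5) l / nS l) • cf α β ε 0 := by
      funext x
      simp only [kf, cf, Pi.add_apply, Pi.smul_apply, smul_eq_mul]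
      ring
    rw [e]
    exact Submodule.add_mem _ (Submodule.smul_mem _ _ (cf_mem α β ε (by omega)))
      (Submodule.smul_mem _ _ (cf_mem α β ε (by omega)))

theorem lam_sq_mem (hd : 5 ≤ d) (α β : ι → ℝ) (l : Line (Fin d) ι) (ε : ℝ) :
    (fun z => lam α β l ε z ^ 2 : (ι → Fin d) → ℝ) ∈ Rep α β ε := by
  set γ := lin1 α l / lin1 β l with hγ
  set δ := - lin0 α l - ε * pw0 3 l + (lin1 α l / lin1 β l) * lin0 β l with hδ
  refine quad_mem hd α β ε (δ ^ 2) (2 * δ) (-2 * γ * δ) 1 (-2 * γ) (γ ^ 2) (fun x => ?_)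
  simp only [lam_eq, ← hγ, ← hδ]; ring

theorem sum_kf_mem (hd : 5 ≤ d) (α β : ι → ℝ) (l : Line (Fin d) ι) (ε : ℝ) (c : ℕ → ℝ) :
    (fun z => ∑ k ∈ Finset.range d, c k * kf α β l ε k z : (ι → Fin d) → ℝ) ∈ Rep α β ε := by
  have e : (fun z => ∑ k ∈ Finset.range d, c k * kf α β l ε k z : (ι → Fin d) → ℝ) =
      ∑ k ∈ Finset.range d, c k • kf α β l ε k := by
    funext z
    simp
  rw [e]
  exact Submodule.sum_mem _ fun k hk =>
    Submodule.smul_mem _ _ (kf_mem hd α β l ε (Finset.mem_range.1 hk))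

theorem phi_mem (hd : 5 ≤ d) (α β : ι → ℝ) (l : Line (Fin d) ι) (ε : ℝ) (c : ℕ → ℝ) :
    (phi α β c l ε : (ι → Fin d) → ℝ) ∈ Rep α β ε :=
  Submodule.sub_mem _ (lam_sq_mem hd α β l ε) (sum_kf_mem hd α β l ε c)

/-- All the properties of the configuration used later. -/
structure GoodConfig (v : (ι → Fin d) → E d) : Prop where
  one : ∃ ℓ : E d →ₗ[ℝ] ℝ, ∀ x, ℓ (v x) = 1
  point : ∀ x, ∃ ℓ : E d →ₗ[ℝ] ℝ, (∀ z, 0 ≤ ℓ (v z)) ∧ ∀ z, ℓ (v z) = 0 ↔ z = x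
  pair : ∀ x y, x ≠ y → ∃ ℓ : E d →ₗ[ℝ] ℝ, (∀ z, 0 ≤ ℓ (v z)) ∧
    ∀ z, ℓ (v z) = 0 ↔ z = x ∨ z = y
  line : ∀ l : Line (Fin d) ι, ∃ ℓ : E d →ₗ[ℝ] ℝ, (∀ z, 0 ≤ ℓ (v z)) ∧
    ∀ z, ℓ (v z) = 0 ↔ ∃ i, l i = z
  indep : ∀ l : Line (Fin d) ι, LinearIndependent ℝ (fun i : Fin d => v (l i))

instance finite_line : Finite (Line (Fin d) ι) := by
  classical
  refine Finite.of_injective (fun l : Line (Fin d) ι => l.idxFun) ?_
  intro l l' h
  cases l; cases l'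
  simp only at h
  subst h
  rfl

theorem exists_goodConfig (ι : Type*) [Fintype ι] {d : ℕ} (hd : 5 ≤ d) :
    ∃ v : (ι → Fin d) → E d, GoodConfig v := by
  classical
  obtain ⟨α, β, hg⟩ := exists_genericPair ι
  obtain ⟨c, hc⟩ := exists_interp (d := d) (fun i => ((i : ℝ) + 1) ^ 6)
  have h1 : ∀ᶠ ε in 𝓝[>] (0 : ℝ), ∀ x y z : ι → Fin d, x ≠ y → x ≠ z → y ≠ z →
      det3 α β ε x y z ≠ 0 := by
    simp only [eventually_all]
    intro x y z hxy hxz hyz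
    exact eventually_det3_ne hg hxy hxz hyz
  have h2 : ∀ᶠ ε in 𝓝[>] (0 : ℝ), ∀ (l : Line (Fin d) ι) (z : ι → Fin d), (∀ i, l i ≠ z) →
      0 < phi α β c l ε z := by
    simp only [eventually_all]
    intro l z hz
    exact eventually_phi_pos hg l c z hz
  obtain ⟨ε, hε1, hε2, hε0⟩ := (h1.and (h2.and self_mem_nhdsWithin)).exists
  have hε0' : (0 : ℝ) < ε := hε0
  refine ⟨vert α β ε, ?_, ?_, ?_, ?_, ?_⟩
  · exact mem_Rep.1 (one_mem' hd α β ε)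
  · intro x
    obtain ⟨ℓ, hℓ⟩ := mem_Rep.1 (point_mem hd α β ε x)
    refine ⟨ℓ, fun z => by rw [hℓ]; positivity, fun z => ?_⟩
    rw [hℓ]
    constructor
    · intro h
      have h3 : (lin β z - lin β x) ^ 2 = 0 := by
        nlinarith [sq_nonneg (fa α ε z - fa α ε x), sq_nonneg (lin β z - lin β x)]
      exact lin_injective hg (sub_eq_zero.1 ((pow_eq_zero_iff two_ne_zero).1 h3))
    · rintro rfl; ring
  · intro x y hxy
    obtain ⟨ℓ, hℓ⟩ := mem_Rep.1 (det3_sq_mem hd α β ε x y)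
    refine ⟨ℓ, fun z => by rw [hℓ]; positivity, fun z => ?_⟩
    rw [hℓ]
    constructor
    · intro h
      by_contra hcon
      push Not at hcon
      exact hε1 x y z hxy hcon.1.symm hcon.2.symm ((pow_eq_zero_iff two_ne_zero).1 h)
    · rintro (rfl | rfl)
      · simp [det3]
      · simp only [det3]; ring
  · intro l
    obtain ⟨ℓ, hℓ⟩ := mem_Rep.1 (phi_mem hd α β l ε c)
    refine ⟨ℓ, fun z => ?_, fun z => ?_⟩
    · rw [hℓ]
      by_cases hz : ∃ i, l i = z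
      · obtain ⟨i, rfl⟩ := hz
        rw [phi_line hg l ε c hc]
      · push Not at hz
        exact (hε2 l z hz).le
    · rw [hℓ]
      constructor
      · intro h
        by_contra hz
        push Not at hz
        exact (hε2 l z hz).ne' h
      · rintro ⟨i, rfl⟩
        exact phi_line hg l ε c hc i
  · intro l
    rw [Fintype.linearIndependent_iff]
    intro g hsum
    obtain ⟨b, hb⟩ := exists_interp g
    have hN : (ε * nS l) ^ 2 ≠ 0 := by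
      have := nS_pos l
      positivity
    obtain ⟨ℓ, hℓ⟩ := mem_Rep.1 (sum_kf_mem hd α β l ε b)
    have h3 : ∀ i, ℓ (vert α β ε (l i)) = (ε * nS l) ^ 2 * g i := by
      intro i
      rw [hℓ, ← hb i, Finset.mul_sum]
      refine Finset.sum_congr rfl fun k _ => ?_
      rw [kf_line hg]
      ring
    have h4 : ∑ i, g i * ((ε * nS l) ^ 2 * g i) = 0 := by
      have := congrArg ℓ hsum
      rw [map_sum, map_zero] at this
      rw [← this]
      refine Finset.sum_congr rfl fun i _ => ?_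
      rw [map_smul, smul_eq_mul, h3]
    have h5 : (ε * nS l) ^ 2 * ∑ i, g i ^ 2 = 0 := by
      rw [← h4, Finset.mul_sum]
      exact Finset.sum_congr rfl fun i _ => by ring
    have h6 : ∑ i, g i ^ 2 = 0 := (mul_eq_zero.1 h5).resolve_left hN
    intro i
    have := (Finset.sum_eq_zero_iff_of_nonneg (fun i _ => sq_nonneg (g i))).1 h6 i
      (Finset.mem_univ i)
    exact (pow_eq_zero_iff two_ne_zero).1 this

end Pool.Agent.H48
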