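import Mathlib
import Pool.Agent.H48.ScribeDefs
import Pool.Agent.H48.PolyCone
import Pool.Agent.H48.Colour
import Pool.Agent.H48.Veronese

/-!
# Assembling the proof
-/

namespace Pool.Agent.H48

open Combinatorics Pool.Agent.Scribability Module

section General

variable {M : Type*} [AddCommGroup M] [Module ℝ M]

/-- The zero cone is a face of a cone without lines. -/
theorem bot_isFaceOf {C : PointedCone ℝ M} (hp : NoLine C) : (⊥ : PointedCone ℝ M).IsFaceOf C := by
  refine ⟨bot_le, ?_⟩
  intro x y a hx hy ha hxy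
  rw [Submodule.mem_bot] at hxy
  have h1 : a • x = 0 := by
    apply hp _ (nnsmul_mem ha.le hx)
    have : -(a • x) = y := by rw [neg_eq_iff_add_eq_zero]; exact hxy
    rw [this]; exact hy
  rcases smul_eq_zero.1 h1 with h | h
  · exact absurd h ha.ne'
  · rw [Submodule.mem_bot]; exact h

/-- The face cut out by a functional. -/
noncomputable def zeroFace (C : PointedCone ℝ M) (ℓ : M →ₗ[ℝ] ℝ) : PointedCone ℝ M :=
  C ⊓ PointedCone.ofSubmodule (LinearMap.ker ℓ)

theorem mem_zeroFace {C : PointedCone ℝ M} {ℓ : M →ₗ[ℝ] ℝ} {x : M} :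
    x ∈ zeroFace C ℓ ↔ x ∈ C ∧ ℓ x = 0 := by
  unfold zeroFace
  rw [Submodule.mem_inf]
  exact Iff.rfl

theorem zeroFace_isFaceOf {C : PointedCone ℝ M} {ℓ : M →ₗ[ℝ] ℝ} (hℓ : ∀ x ∈ C, 0 ≤ ℓ x) :
    (zeroFace C ℓ).IsFaceOf C := by
  refine ⟨inf_le_left, ?_⟩
  intro x y a hx hy ha hxy
  rw [mem_zeroFace] at hxy ⊢
  refine ⟨hx, ?_⟩
  have h1 := hxy.2
  rw [map_add, map_smul, smul_eq_mul] at h1
  have h2 := hℓ x hx
  have h3 := hℓ y hy
  by_contra hne
  have : 0 < ℓ x := lt_of_le_of_ne h2 (Ne.symm hne)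
  have : 0 < a * ℓ x := by positivity
  linarith

theorem nonneg_of_hull {S : Set M} {ℓ : M →ₗ[ℝ] ℝ} (h : ∀ g ∈ S, 0 ≤ ℓ g) :
    ∀ x ∈ PointedCone.hull ℝ S, 0 ≤ ℓ x := by
  intro x hx
  induction hx using Submodule.span_induction with
  | mem z hz => exact h z hz
  | zero => simp
  | add a b _ _ ha hb => rw [map_add]; linarith
  | smul r a _ ha =>
    have : ℓ (r • a) = r.1 * ℓ a := by
      change ℓ (r.1 • a) = _
      rw [map_smul, smul_eq_mul]
    rw [this]
    exact mul_nonneg r.2 ha

theorem pos_of_hull {S : Set M} {ℓ : M →ₗ[ℝ] ℝ} (h : ∀ g ∈ S, 0 < ℓ g) :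
    ∀ x ∈ PointedCone.hull ℝ S, 0 < ℓ x ∨ x = 0 := by
  intro x hx
  induction hx using Submodule.span_induction with
  | mem z hz => exact Or.inl (h z hz)
  | zero => exact Or.inr rfl
  | add a b _ _ ha hb =>
    rcases ha with ha | rfl
    · rcases hb with hb | rfl
      · left; rw [map_add]; linarith
      · left; rwa [add_zero]
    · rcases hb with hb | rfl
      · left; rwa [zero_add]
      · right; simp
  | smul r a _ ha =>
    rcases ha with ha | rfl
    · rcases r.2.eq_or_lt with hr | hr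
      · right
        change r.1 • a = 0
        rw [← hr, zero_smul]
      · left
        have : ℓ (r • a) = r.1 * ℓ a := by
          change ℓ (r.1 • a) = _
          rw [map_smul, smul_eq_mul]
        rw [this]
        positivity
    · right; rw [smul_zero]

end General

variable {ι : Type*} [Fintype ι] {d : ℕ}

/-- The cone over the polytope. -/
noncomputable def K (v : (ι → Fin d) → E d) : PointedCone ℝ (E d) :=
  PointedCone.hull ℝ (Set.range v)

omit [Fintype ι] in
theorem v_mem (v : (ι → Fin d) → E d) (x : ι → Fin d) : v x ∈ K v :=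
  Submodule.subset_span ⟨x, rfl⟩

omit [Fintype ι] in
theorem K_noLine {v : (ι → Fin d) → E d} (hv : GoodConfig v) : NoLine (K v) := by
  obtain ⟨ℓ, hℓ⟩ := hv.one
  intro x hx hx'
  have h1 := pos_of_hull (ℓ := ℓ) (S := Set.range v) (by rintro _ ⟨z, rfl⟩; rw [hℓ]; norm_num)
  rcases h1 x hx with h | h
  · rcases h1 (-x) hx' with h' | h'
    · rw [map_neg] at h'; linarith
    · rwa [neg_eq_zero] at h'
  · exact h

omit [Fintype ι] in
theorem v_ne_zero {v : (ι → Fin d) → E d} (hv : GoodConfig v) (x : ι → Fin d) : v x ≠ 0 := by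
  obtain ⟨ℓ, hℓ⟩ := hv.one
  intro h
  have := hℓ x
  rw [h, map_zero] at this
  norm_num at this

/-- A face of `K v` is generated by the vertices it contains. -/
theorem face_le_of_vert {v : (ι → Fin d) → E d} {F G : PointedCone ℝ (E d)}
    (hF : F.IsFaceOf (K v)) (h : ∀ x, v x ∈ F → v x ∈ G) : F ≤ G := by
  classical
  intro y hy
  have hfin : (Set.range v).Finite := Set.finite_range v
  have h1 : PointedCone.hull ℝ ((hfin.toFinset : Finset (E d)) : Set (E d)) = K v := by
    rw [Set.Finite.coe_toFinset]; rfl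
  have h2 := face_eq_hull_inter h1 hF hy
  have h3 : PointedCone.hull ℝ {g : E d | g ∈ hfin.toFinset ∧ g ∈ F} ≤ G := by
    apply Submodule.span_le.2
    rintro g ⟨hg, hgF⟩
    rw [Set.Finite.mem_toFinset] at hg
    obtain ⟨x, rfl⟩ := hg
    exact h x hgF
  exact h3 h2

theorem face_eq_bot_of_vert {v : (ι → Fin d) → E d} {F : PointedCone ℝ (E d)}
    (hF : F.IsFaceOf (K v)) (h : ∀ x, v x ∉ F) : F = ⊥ := by
  rw [eq_bot_iff]
  exact face_le_of_vert hF fun x hx => absurd hx (h x)

omit [Fintype ι] in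
/-- A line and one more point span everything. -/
theorem span_full {v : (ι → Fin d) → E d} (hv : GoodConfig v) (l : Line (Fin d) ι)
    {z : ι → Fin d} (hz : ∀ i, l i ≠ z) {W : Submodule ℝ (E d)} (hW : ∀ i, v (l i) ∈ W)
    (hzW : v z ∈ W) : W = ⊤ := by
  obtain ⟨ℓ, -, hℓ⟩ := hv.line l
  have hlin := hv.indep l
  have hU : finrank ℝ (Submodule.span ℝ (Set.range fun i : Fin d => v (l i))) = d := by
    rw [finrank_span_eq_card hlin, Fintype.card_fin]
  set U := Submodule.span ℝ (Set.range fun i : Fin d => v (l i)) with hUdef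
  have hUW : U < W := by
    refine lt_of_le_of_ne (Submodule.span_le.2 ?_) ?_
    · rintro _ ⟨i, rfl⟩; exact hW i
    · intro h
      have h1 : v z ∈ U := h ▸ hzW
      have h2 : U ≤ LinearMap.ker ℓ := by
        apply Submodule.span_le.2
        rintro _ ⟨i, rfl⟩
        exact (hℓ (l i)).2 ⟨i, rfl⟩
      have h3 : ℓ (v z) = 0 := h2 h1
      obtain ⟨i, hi⟩ := (hℓ z).1 h3
      exact hz i hi
  have hlt : finrank ℝ U < finrank ℝ W := Submodule.finrank_lt_finrank_of_lt hUW
  apply Submodule.eq_top_of_finrank_eq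
  have h4 : finrank ℝ (E d) = d + 1 := by simp
  have h5 : finrank ℝ W ≤ finrank ℝ (E d) := Submodule.finrank_le W
  omega

theorem isSphericalPolytope_K {v : (ι → Fin d) → E d} (hv : GoodConfig v) (l : Line (Fin d) ι)
    {z : ι → Fin d} (hz : ∀ i, l i ≠ z) : IsSphericalPolytope d (K v) where
  fg := Submodule.fg_span (Set.finite_range v)
  span_eq_top := span_full hv l hz (fun _ => Submodule.subset_span (v_mem v _))
    (Submodule.subset_span (v_mem v z))
  no_line := K_noLine hv

omit [Fintype ι] in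
theorem K_nonneg {v : (ι → Fin d) → E d} {ℓ : E d →ₗ[ℝ] ℝ} (h : ∀ z, 0 ≤ ℓ (v z)) :
    ∀ x ∈ K v, 0 ≤ ℓ x :=
  nonneg_of_hull (by rintro _ ⟨z, rfl⟩; exact h z)

omit [Fintype ι] in
theorem line_inj {d : ℕ} (l : Line (Fin d) ι) (i j : Fin d) (hij : l i = l j) : i = j := by
  obtain ⟨k, hk⟩ := l.proper
  have := congrFun hij k
  rwa [Line.apply_none _ _ _ hk, Line.apply_none _ _ _ hk] at this

omit [Fintype ι] in
/-- If every colouring has a monochromatic line then no line contains all points. -/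
theorem exists_off_line {m : ℕ} (hm : 1 ≤ m) (l : Line (Fin (m + 1)) ι)
    (hHJ : ∀ C : (ι → Fin (m + 1)) → Col m, ∃ l : Line (Fin (m + 1)) ι, l.IsMono C) :
    ∃ z₀, ∀ i, l i ≠ z₀ := by
  classical
  by_contra hcon
  push Not at hcon
  obtain ⟨l', c', hl'⟩ := hHJ (fun x => if x = l ⟨0, by omega⟩ then none else some none)
  have h01 : (⟨0, by omega⟩ : Fin (m + 1)) ≠ ⟨1, by omega⟩ := by
    intro h; simp [Fin.ext_iff] at h
  -- the points of `l'` are `m + 1` distinct points, so they are all points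
  let τ : Fin (m + 1) → Fin (m + 1) := fun i => (hcon (l' i)).choose
  have hτ : ∀ i, l (τ i) = l' i := fun i => (hcon (l' i)).choose_spec
  have hτinj : Function.Injective τ := by
    intro i j hij
    apply line_inj l'
    rw [← hτ, ← hτ, hij]
  have hτsurj : Function.Surjective τ := Finite.injective_iff_surjective.1 hτinj
  obtain ⟨i, hi⟩ := hτsurj ⟨0, by omega⟩
  obtain ⟨j, hj⟩ := hτsurj ⟨1, by omega⟩
  have h1 := hl' i
  have h2 := hl' j
  simp only at h1 h2
  rw [← hτ i, hi, if_pos rfl] at h1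
  rw [← hτ j, hj, if_neg (fun h => h01 (line_inj l _ _ h).symm)] at h2
  rw [← h1] at h2
  simp at h2

/-- The main argument: an isomorphic copy of the face lattice cannot be scribed. -/
theorem not_scribed {m : ℕ} (hm : 4 ≤ m) {v : (ι → Fin (m + 1)) → E (m + 1)}
    (hv : GoodConfig v)
    (hHJ : ∀ C : (ι → Fin (m + 1)) → Col m, ∃ l : Line (Fin (m + 1)) ι, l.IsMono C)
    {K' : PointedCone ℝ (E (m + 1))} (hK' : IsSphericalPolytope (m + 1) K')
    (φ : FaceLattice (K v) ≃o FaceLattice K')
    (havoid : ∀ F, IsFaceOfDim 1 F K' → StronglyAvoids F K')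
    (hcut : ∀ F, IsFaceOfDim m F K' → StronglyCuts F) : False := by
  classical
  have hp' : NoLine K' := hK'.no_line
  have hp : NoLine (K v) := K_noLine hv
  -- bottom faces
  let b : FaceLattice (K v) := ⟨⊥, bot_isFaceOf hp⟩
  let b' : FaceLattice K' := ⟨⊥, bot_isFaceOf hp'⟩
  have hbb' : φ b = b' := by
    apply le_antisymm
    · have h1 : b ≤ φ.symm b' := by
        change (⊥ : PointedCone ℝ (E (m + 1))) ≤ _
        exact bot_le
      have h2 := φ.monotone h1
      rwa [φ.apply_symm_apply] at h2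
    · change (⊥ : PointedCone ℝ (E (m + 1))) ≤ _
      exact bot_le
  -- generators of `K'`
  obtain ⟨S, hS0, hSK, hSf⟩ := exists_extreme_generators K' hK'.fg hp'
  -- the ray faces of `K v`
  choose pt hpt0 hpt using hv.point
  have hptF : ∀ x, (zeroFace (K v) (pt x)).IsFaceOf (K v) := fun x =>
    zeroFace_isFaceOf (K_nonneg (hpt0 x))
  let R : (ι → Fin (m + 1)) → FaceLattice (K v) := fun x => ⟨zeroFace (K v) (pt x), hptF x⟩
  have hRmem : ∀ x z, v z ∈ (R x).1 ↔ z = x := by
    intro x z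
    change v z ∈ zeroFace (K v) (pt x) ↔ _
    rw [mem_zeroFace, hpt]
    exact ⟨fun h => h.2, fun h => ⟨v_mem v z, h⟩⟩
  have hRle : ∀ x (G : FaceLattice (K v)), R x ≤ G ↔ v x ∈ G.1 := by
    intro x G
    constructor
    · intro h
      exact h ((hRmem x x).2 rfl)
    · intro h
      apply face_le_of_vert (R x).2
      intro z hz
      rw [(hRmem x z).1 hz]
      exact h
  have hRb : ∀ x, R x ≠ b := by
    intro x h
    have h1 : v x ∈ (R x).1 := (hRmem x x).2 rfl
    rw [h] at h1
    exact v_ne_zero hv x ((Submodule.mem_bot _).1 h1)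
  -- nonzero faces contain a ray
  have hne_bot : ∀ G : FaceLattice (K v), G ≠ b → ∃ x, R x ≤ G := by
    intro G hG
    by_contra hcon
    push Not at hcon
    apply hG
    apply Subtype.ext
    exact face_eq_bot_of_vert G.2 fun x hx => hcon x ((hRle x G).2 hx)
  -- the rays of `K'`
  have hray : ∀ x, ∃ g ∈ S, PointedCone.hull ℝ ({g} : Set (E (m + 1))) = (φ (R x)).1 := by
    intro x
    obtain ⟨g, hgS, hgR⟩ : ∃ g ∈ S, g ∈ (φ (R x)).1 := by
      by_contra hcon
      push Not at hcon
      apply hRb x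
      apply φ.injective
      rw [hbb']
      apply Subtype.ext
      rw [eq_bot_iff]
      intro y hy
      have h1 := face_eq_hull_inter hSK (φ (R x)).2 hy
      have h2 : {g : E (m + 1) | g ∈ S ∧ g ∈ (φ (R x)).1} = ∅ := by
        ext g
        simp only [Set.mem_ofPred_eq, Set.mem_empty_iff_false, iff_false, not_and]
        exact hcon g
      rw [h2] at h1
      simpa [PointedCone.hull] using h1
    refine ⟨g, hgS, ?_⟩
    let H : FaceLattice K' := ⟨_, hSf g hgS⟩
    have hle : H ≤ φ (R x) := by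
      apply Submodule.span_le.2
      rintro _ rfl
      exact hgR
    have h1 : φ.symm H ≤ R x := by
      have := φ.symm.monotone hle
      rwa [φ.symm_apply_apply] at this
    have hHne : φ.symm H ≠ b := by
      intro h
      have h2 : H = b' := by rw [← hbb', ← h, φ.apply_symm_apply]
      have h3 : g ∈ H.1 := Submodule.subset_span rfl
      rw [h2] at h3
      exact hS0 (((Submodule.mem_bot _).1 h3) ▸ hgS)
    obtain ⟨z, hz⟩ := hne_bot _ hHne
    have hzx : z = x := (hRmem x z).1 ((hRle z (R x)).1 (hz.trans h1))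
    subst hzx
    have h4 : φ.symm H = R z := le_antisymm h1 hz
    rw [← h4, φ.apply_symm_apply]
  choose g hgS hg using hray
  have hg0 : ∀ x, g x ≠ 0 := fun x h => hS0 (h ▸ hgS x)
  have hgK : ∀ x, g x ∈ K' := fun x => by rw [← hSK]; exact Submodule.subset_span (hgS x)
  -- incidence
  have hgmem : ∀ x (G : FaceLattice (K v)), g x ∈ (φ G).1 ↔ v x ∈ G.1 := by
    intro x G
    rw [← hRle, ← φ.le_iff_le]
    constructor
    · intro h
      change (φ (R x)).1 ≤ (φ G).1
      rw [← hg x]
      apply Submodule.span_le.2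
      rintro _ rfl
      exact h
    · intro h
      apply h
      rw [← hg x]
      exact Submodule.subset_span rfl
  -- every generator of `K'` is a multiple of some `g x`
  have hcover : ∀ s ∈ S, ∃ x, s ∈ PointedCone.hull ℝ ({g x} : Set (E (m + 1))) ∧
      g x ∈ PointedCone.hull ℝ ({s} : Set (E (m + 1))) := by
    intro s hs
    let H : FaceLattice K' := ⟨_, hSf s hs⟩
    have hHne : φ.symm H ≠ b := by
      intro h
      have h2 : H = b' := by rw [← hbb', ← h, φ.apply_symm_apply]
      have h3 : s ∈ H.1 := Submodule.subset_span rfl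
      rw [h2] at h3
      exact hS0 (((Submodule.mem_bot _).1 h3) ▸ hs)
    obtain ⟨x, hx⟩ := hne_bot _ hHne
    have h1 : φ (R x) ≤ H := by
      have := φ.monotone hx
      rwa [φ.apply_symm_apply] at this
    have h2 : g x ∈ PointedCone.hull ℝ ({s} : Set (E (m + 1))) := by
      apply h1
      rw [← hg x]
      exact Submodule.subset_span rfl
    refine ⟨x, ?_, h2⟩
    obtain ⟨r, hr, hre⟩ := mem_hull_singleton.1 h2
    have hr0 : r ≠ 0 := by
      rintro rfl
      rw [zero_smul] at hre
      exact hg0 x hre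
    refine mem_hull_singleton.2 ⟨r⁻¹, inv_nonneg.2 hr, ?_⟩
    rw [hre, smul_smul, inv_mul_cancel₀ hr0, one_smul]
  -- faces of `K'` are generated by the `g x` they contain
  have hgen : ∀ G : FaceLattice K', ∀ y ∈ G.1,
      y ∈ PointedCone.hull ℝ {w : E (m + 1) | ∃ x, g x = w ∧ g x ∈ G.1} := by
    intro G y hy
    have h1 := face_eq_hull_inter hSK G.2 hy
    have h2 : PointedCone.hull ℝ {w : E (m + 1) | w ∈ S ∧ w ∈ G.1} ≤
        PointedCone.hull ℝ {w : E (m + 1) | ∃ x, g x = w ∧ g x ∈ G.1} := by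
      apply Submodule.span_le.2
      rintro w ⟨hwS, hwG⟩
      obtain ⟨x, hx1, hx2⟩ := hcover w hwS
      have h3 : g x ∈ G.1 := by
        obtain ⟨r, hr, hre⟩ := mem_hull_singleton.1 hx2
        rw [hre]
        exact nnsmul_mem hr hwG
      obtain ⟨r, hr, hre⟩ := mem_hull_singleton.1 hx1
      rw [hre]
      exact nnsmul_mem hr (Submodule.subset_span ⟨x, rfl, h3⟩)
    exact h2 h1
  -- distinct vertices are not parallel
  have hpar : ∀ x y, x ≠ y → ∀ r s : ℝ, r • g x = s • g y → r = 0 ∧ s = 0 := by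
    intro x y hxy r s hrs
    by_cases hr : r = 0
    · refine ⟨hr, ?_⟩
      rw [hr, zero_smul] at hrs
      rcases smul_eq_zero.1 hrs.symm with h | h
      · exact h
      · exact absurd h (hg0 y)
    · exfalso
      have hgx : g x = (r⁻¹ * s) • g y := by
        rw [mul_smul, ← hrs, smul_smul, inv_mul_cancel₀ hr, one_smul]
      rcases le_total 0 (r⁻¹ * s) with hpos | hneg
      · have h1 : g x ∈ (φ (R y)).1 := by
          rw [← hg y, hgx]
          exact nnsmul_mem hpos (Submodule.subset_span rfl)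
        have h2 := (hgmem x (R y)).1 h1
        exact hxy ((hRmem y x).1 h2)
      · apply hg0 x
        apply hp' _ (hgK x)
        rw [hgx, ← neg_smul]
        exact nnsmul_mem (by linarith) (hgK y)
  -- pairs
  have hpair : ∀ x y, x ≠ y → ∃ ℓ : E (m + 1) →ₗ[ℝ] ℝ, ℓ ≠ 0 ∧
      (∀ z ∈ ball (m + 1), ℓ z ≤ 0) ∧ ℓ (g x) = 0 ∧ ℓ (g y) = 0 := by
    intro x y hxy
    obtain ⟨ℓ₀, hℓ₀, hℓ₀'⟩ := hv.pair x y hxy
    let Exy : FaceLattice (K v) := ⟨zeroFace (K v) ℓ₀, zeroFace_isFaceOf (K_nonneg hℓ₀)⟩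
    have hEmem : ∀ z, v z ∈ Exy.1 ↔ z = x ∨ z = y := by
      intro z
      change v z ∈ zeroFace (K v) ℓ₀ ↔ _
      rw [mem_zeroFace, hℓ₀']
      exact ⟨fun h => h.2, fun h => ⟨v_mem v z, h⟩⟩
    have hdim : IsFaceOfDim 1 (φ Exy).1 K' := by
      refine ⟨(φ Exy).2, ?_⟩
      have hspan : Submodule.span ℝ ((φ Exy).1 : Set (E (m + 1))) =
          Submodule.span ℝ (Set.range ![g x, g y]) := by
        apply le_antisymm
        · apply Submodule.span_le.2
          intro w hw
          have h1 := hgen (φ Exy) w hw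
          have h2 := PointedCone.hull_le_span ℝ _ h1
          have h3 : Submodule.span ℝ {w : E (m + 1) | ∃ x, g x = w ∧ g x ∈ (φ Exy).1} ≤
              Submodule.span ℝ (Set.range ![g x, g y]) := by
            apply Submodule.span_le.2
            rintro _ ⟨z, rfl, hz⟩
            rw [hgmem, hEmem] at hz
            rcases hz with rfl | rfl
            · exact Submodule.subset_span ⟨0, rfl⟩
            · exact Submodule.subset_span ⟨1, rfl⟩
          exact h3 h2
        · apply Submodule.span_le.2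
          rintro _ ⟨i, rfl⟩
          apply Submodule.subset_span
          fin_cases i
          · exact (hgmem x Exy).2 ((hEmem x).2 (Or.inl rfl))
          · exact (hgmem y Exy).2 ((hEmem y).2 (Or.inr rfl))
      have hli : LinearIndependent ℝ ![g x, g y] := by
        rw [LinearIndependent.pair_iff]
        intro r s hrs
        have h1 : r • g x = (-s) • g y := by
          rw [neg_smul]; exact eq_neg_of_add_eq_zero_left hrs
        have h2 := hpar x y hxy r (-s) h1
        exact ⟨h2.1, by linarith [h2.2]⟩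
      rw [hspan, finrank_span_eq_card hli]
      simp
    obtain ⟨ℓ, hℓ0, -, hℓF, hℓB⟩ := havoid _ hdim
    exact ⟨ℓ, hℓ0, hℓB, (hℓF _ (hgK x)).1 ((hgmem x Exy).2 ((hEmem x).2 (Or.inl rfl))),
      (hℓF _ (hgK y)).1 ((hgmem y Exy).2 ((hEmem y).2 (Or.inr rfl)))⟩
  -- there is a line at all, hence at least two points
  obtain ⟨l₀, -⟩ := hHJ (fun _ => none)
  have hdist : ∀ (l : Line (Fin (m + 1)) ι) (i j : Fin (m + 1)), l i = l j → i = j :=
    line_inj
  have h01 : (⟨0, by omega⟩ : Fin (m + 1)) ≠ ⟨1, by omega⟩ := by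
    intro h; simp [Fin.ext_iff] at h
  have : Nontrivial (ι → Fin (m + 1)) :=
    ⟨⟨l₀ ⟨0, by omega⟩, l₀ ⟨1, by omega⟩, fun h => h01 (hdist _ _ _ h)⟩⟩
  -- colour the vertices
  obtain ⟨C, Λ, hΛ, hC, huniq⟩ := exists_colouring g hpar hpair
  obtain ⟨l, c, hlc⟩ := hHJ C
  have hcne : c ≠ none := by
    rintro rfl
    exact h01 (hdist l _ _ (huniq _ _ (hlc _) (hlc _)))
  -- the facet of the line
  obtain ⟨ℓ₀, hℓ₀, hℓ₀'⟩ := hv.line l
  let Fl : FaceLattice (K v) := ⟨zeroFace (K v) ℓ₀, zeroFace_isFaceOf (K_nonneg hℓ₀)⟩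
  have hFmem : ∀ z, v z ∈ Fl.1 ↔ ∃ i, l i = z := by
    intro z
    change v z ∈ zeroFace (K v) ℓ₀ ↔ _
    rw [mem_zeroFace, hℓ₀']
    exact ⟨fun h => h.2, fun h => ⟨v_mem v z, h⟩⟩
  have hdim : IsFaceOfDim m (φ Fl).1 K' := by
    refine ⟨(φ Fl).2, ?_⟩
    obtain ⟨z₀, hz₀⟩ := exists_off_line (by omega) l (fun C => hHJ C)
    have hmax := finrank_of_maximal_face (C := K') (F := (φ Fl).1) hK'.fg hK'.span_eq_top
      (φ Fl).2 ?_ ?_
    · have h4 : finrank ℝ (E (m + 1)) = m + 1 + 1 := by simp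
      omega
    · -- proper
      intro h
      have h1 : g z₀ ∈ (φ Fl).1 := by rw [h]; exact hgK z₀
      rw [hgmem, hFmem] at h1
      obtain ⟨i, hi⟩ := h1
      exact hz₀ i hi
    · -- maximal
      intro G hG hFG
      let G' : FaceLattice K' := ⟨G, hG⟩
      have h1 : Fl ≤ φ.symm G' := by
        have h2 : φ Fl ≤ G' := hFG
        have := φ.symm.monotone h2
        rwa [φ.symm_apply_apply] at this
      by_cases hcase : ∃ z, (∀ i, l i ≠ z) ∧ v z ∈ (φ.symm G').1
      · right
        obtain ⟨z, hz, hzG⟩ := hcase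
        have hspan : Submodule.span ℝ ((φ.symm G').1 : Set (E (m + 1))) = ⊤ := by
          apply span_full hv l hz
          · intro i
            apply Submodule.subset_span
            exact h1 ((hFmem (l i)).2 ⟨i, rfl⟩)
          · exact Submodule.subset_span hzG
        have h3 : (φ.symm G').1 = K v := face_eq_top_of_span (φ.symm G').2 hspan
        -- so `G'` is the top face
        have h4 : (⟨K', PointedCone.IsFaceOf.refl K'⟩ : FaceLattice K') ≤ G' := by
          have h5 : φ.symm ⟨K', PointedCone.IsFaceOf.refl K'⟩ ≤ φ.symm G' := by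
            change (φ.symm ⟨K', PointedCone.IsFaceOf.refl K'⟩).1 ≤ (φ.symm G').1
            rw [h3]
            exact (φ.symm ⟨K', PointedCone.IsFaceOf.refl K'⟩).2.le
          exact φ.symm.le_iff_le.1 h5
        exact le_antisymm hG.le h4
      · left
        push Not at hcase
        have h2 : φ.symm G' ≤ Fl := by
          apply face_le_of_vert (φ.symm G').2
          intro z hz
          rw [hFmem]
          by_contra hno
          push Not at hno
          exact hcase z hno hz
        have h3 : φ.symm G' = Fl := le_antisymm h2 h1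
        have h4 : G' = φ Fl := by rw [← h3, φ.apply_symm_apply]
        exact congrArg Subtype.val h4
  obtain ⟨y, hyF, hyB⟩ := hcut _ hdim
  have hyF' : y ∈ (φ Fl).1 := intrinsicInterior_subset hyF
  have h1 := hgen (φ Fl) y hyF'
  have h2 := pos_of_hull (ℓ := Λ c) (S := {w : E (m + 1) | ∃ x, g x = w ∧ g x ∈ (φ Fl).1}) (by
    rintro _ ⟨x, rfl, hx⟩
    rw [hgmem, hFmem] at hx
    obtain ⟨i, rfl⟩ := hx
    have h3 := hC (l i) (by rw [hlc i]; exact hcne)
    rwa [hlc i] at h3) y h1
  have h3 := hΛ c y hyB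
  rcases h2 with h2 | h2
  · linarith
  · have h4 := hyB.1
    rw [h2, norm_zero] at h4
    exact zero_ne_one h4

end Pool.Agent.H48
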