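import Pool.Agent.H48.Hk.Fiber

/-!
MP_0201c8_ag, Q1 for `r = n - 1`: the ideal of maximal minors of the degenerate Hankel matrix
`H[n-1]` is of fiber type, for every `n`.
-/

namespace Pool.Agent.Results.MP_0201c8_ag.FiberTypeLast

open MvPolynomial

/-- The `n × (n+2)` matrix whose entry in row `i` and column `j` (both counted from `0`) is the
variable `x_{i+j}` of `K[x_0, ..., x_{m-1}]` if `i + j < m`, and `0` otherwise. With the variables
counted from `1` the entry in row `i` and column `j` (counted from `1`) is `x_{i+j-1}` if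
`i + j - 1 ≤ m`; for `m = 2n + 1 - r` this is the matrix `H[r]`. -/
noncomputable def hankel (K : Type*) [Field K] (n m : ℕ) :
    Matrix (Fin n) (Fin (n + 2)) (MvPolynomial (Fin m) K) :=
  Matrix.of fun i j => if h : (i : ℕ) + (j : ℕ) < m then X ⟨(i : ℕ) + (j : ℕ), h⟩ else 0

/-- The maximal minor of the matrix on the columns given by an increasing map `f`, that is, on the
columns of an `n`-subset of the `n + 2` columns. -/
noncomputable def maxMinor (K : Type*) [Field K] (n m : ℕ) (f : Fin n ↪o Fin (n + 2)) :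
    MvPolynomial (Fin m) K :=
  ((hankel K n m).submatrix id f).det

/-- The map `φ` from `S[T_f]` to `S[t]`, where `S = K[x_0, ..., x_{m-1}]`, that sends `T_f` to the
minor on the columns `f` times `t`; its image is the Rees algebra of the ideal of maximal
minors. -/
noncomputable def phi (K : Type*) [Field K] (n m : ℕ) :
    MvPolynomial (Fin n ↪o Fin (n + 2)) (MvPolynomial (Fin m) K) →ₐ[MvPolynomial (Fin m) K]
      Polynomial (MvPolynomial (Fin m) K) :=
  aeval (fun f => Polynomial.C (maxMinor K n m f) * Polynomial.X)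

/-- `F` is bihomogeneous of bidegree `(a, b)`: of degree `b` in the variables `T_f`, and all its
coefficients are homogeneous of degree `a` in `x_0, ..., x_{m-1}`. -/
def BiHom (K : Type*) [Field K] (n m a b : ℕ)
    (F : MvPolynomial (Fin n ↪o Fin (n + 2)) (MvPolynomial (Fin m) K)) : Prop :=
  F.IsHomogeneous b ∧ ∀ d, (coeff d F).IsHomogeneous a

/-- The ideal of maximal minors is of fiber type: the kernel of `φ` is generated by its elements
that are bihomogeneous of a bidegree `(0, b)` or of a bidegree `(a, 1)`. -/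
def FiberType (K : Type*) [Field K] (n m : ℕ) : Prop :=
  RingHom.ker (phi K n m) = Ideal.span
    {F | F ∈ RingHom.ker (phi K n m) ∧
      ((∃ b, BiHom K n m 0 b F) ∨ (∃ a, BiHom K n m a 1 F))}

section

variable {K : Type*} [Field K]

theorem phi_monomial (n m : ℕ) (d : (Fin n ↪o Fin (n + 2)) →₀ ℕ) (s : MvPolynomial (Fin m) K) :
    phi K n m (monomial d s) =
      Polynomial.C (aeval (maxMinor K n m) (monomial d s)) * Polynomial.X ^ d.degree := by
  unfold phi
  rw [aeval_monomial, aeval_monomial]
  have h1 : (algebraMap (MvPolynomial (Fin m) K) (Polynomial (MvPolynomial (Fin m) K))) s =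
      Polynomial.C s := rfl
  have h2 : (algebraMap (MvPolynomial (Fin m) K) (MvPolynomial (Fin m) K)) s = s := rfl
  rw [h1, h2, Polynomial.C_mul, mul_assoc]
  congr 1
  rw [Finsupp.prod_fintype _ _ (fun f => pow_zero _), Finsupp.prod_fintype _ _
    (fun f => pow_zero _)]
  simp_rw [mul_pow]
  rw [Finset.prod_mul_distrib, Finset.prod_pow_eq_pow_sum, map_prod]
  congr 1
  · apply Finset.prod_congr rfl
    intro f _
    rw [Polynomial.C_pow]
  · congr 1
    rw [Finsupp.degree_eq_sum]

theorem phi_homog {n m b : ℕ}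
    {F : MvPolynomial (Fin n ↪o Fin (n + 2)) (MvPolynomial (Fin m) K)} (hF : F.IsHomogeneous b) :
    phi K n m F = Polynomial.C (aeval (maxMinor K n m) F) * Polynomial.X ^ b := by
  conv_lhs => rw [F.as_sum]
  conv_rhs => rw [F.as_sum]
  rw [map_sum, map_sum, map_sum, Finset.sum_mul]
  apply Finset.sum_congr rfl
  intro d hd
  rw [phi_monomial]
  congr 2
  rw [mem_support_iff] at hd
  rw [Finsupp.degree_eq_weight_one]
  exact hF hd

theorem aeval_component {n m : ℕ}
    {F : MvPolynomial (Fin n ↪o Fin (n + 2)) (MvPolynomial (Fin m) K)}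
    (hF : phi K n m F = 0) (b : ℕ) :
    aeval (maxMinor K n m) (homogeneousComponent b F) = 0 := by
  have h1 : F = ∑ i ∈ Finset.range (max (F.totalDegree + 1) (b + 1)),
      homogeneousComponent i F := by
    conv_lhs => rw [← sum_homogeneousComponent F]
    apply Finset.sum_subset
    · intro i hi
      rw [Finset.mem_range] at hi ⊢
      exact lt_of_lt_of_le hi (le_max_left _ _)
    · intro i _ hi
      rw [Finset.mem_range, not_lt] at hi
      exact homogeneousComponent_eq_zero _ _ (by omega)
  have h2 : Polynomial.coeff (phi K n m F) b = Polynomial.coeff 0 b := by rw [hF]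
  rw [h1, map_sum, Polynomial.finsetSum_coeff, Polynomial.coeff_zero] at h2
  rw [Finset.sum_eq_single b] at h2
  · rw [phi_homog (homogeneousComponent_isHomogeneous b F), Polynomial.coeff_C_mul,
      Polynomial.coeff_X_pow, if_pos rfl, mul_one] at h2
    exact h2
  · intro i _ hi
    rw [phi_homog (homogeneousComponent_isHomogeneous i F), Polynomial.coeff_C_mul,
      Polynomial.coeff_X_pow, if_neg (fun h => hi h.symm), mul_zero]
  · intro h
    rw [Finset.mem_range, not_lt] at h
    have := le_max_right (F.totalDegree + 1) (b + 1)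
    omega

theorem rename_rename_rev {N : ℕ} (s : MvPolynomial (Fin N) K) :
    rename Fin.rev (rename Fin.rev s) = s := by
  rw [rename_rename]
  have : (Fin.rev ∘ Fin.rev : Fin N → Fin N) = id := by
    funext i
    simp
  rw [this, rename_id, AlgHom.id_apply]

theorem rename_Dm (n : ℕ) (f : Fin n ↪o Fin (n + 2)) :
    rename Fin.rev (H48.Hk.Dm K n f) = maxMinor K n (n + 2) f := by
  unfold H48.Hk.Dm H48.Hk.mnr maxMinor
  have h := H48.Hk.mn_map (rename Fin.rev : MvPolynomial (Fin (n + 2)) K →ₐ[K] _).toRingHom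
    (fun (i : Fin n) (j : ℕ) => H48.Hk.ent K (n + 2) j i) (fun j => n + 1 - (f j : ℕ))
  refine h.trans ?_
  unfold H48.Hk.mn
  congr 1
  ext1 i j
  simp only [Matrix.of_apply, Matrix.submatrix_apply, id, hankel]
  change rename Fin.rev (H48.Hk.ent K (n + 2) (n + 1 - (f j : ℕ)) i) = _
  unfold H48.Hk.ent
  by_cases h1 : (i : ℕ) + (f j : ℕ) < n + 2
  · rw [if_pos (by omega), dif_pos h1, H48.Hk.ev_of_lt (by omega), rename_X]
    congr 1
    ext
    rw [Fin.val_rev]
    simp only
    omega
  · rw [dif_neg h1, if_neg (by omega), map_zero]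

theorem aeval_map_rename (n : ℕ)
    (F : MvPolynomial (Fin n ↪o Fin (n + 2)) (MvPolynomial (Fin (n + 2)) K)) :
    aeval (maxMinor K n (n + 2)) (map (rename Fin.rev : _ →ₐ[K] _).toRingHom F) =
      rename Fin.rev (aeval (H48.Hk.Dm K n) F) := by
  induction F using MvPolynomial.induction_on with
  | C s =>
    rw [map_C, aeval_C, aeval_C]
    rfl
  | add p q hp hq => rw [map_add, map_add, hp, hq, map_add, map_add]
  | mul_X p f hp =>
    rw [map_mul, map_mul, hp, map_X, aeval_X, map_mul, map_mul, aeval_X, rename_Dm]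

theorem aeval_map_rename' (n : ℕ)
    (F : MvPolynomial (Fin n ↪o Fin (n + 2)) (MvPolynomial (Fin (n + 2)) K)) :
    aeval (H48.Hk.Dm K n) (map (rename Fin.rev : _ →ₐ[K] _).toRingHom F) =
      rename Fin.rev (aeval (maxMinor K n (n + 2)) F) := by
  induction F using MvPolynomial.induction_on with
  | C s =>
    rw [map_C, aeval_C, aeval_C]
    rfl
  | add p q hp hq => rw [map_add, map_add, hp, hq, map_add, map_add]
  | mul_X p f hp =>
    rw [map_mul, map_mul, hp, map_X, aeval_X, map_mul, map_mul, aeval_X, ← rename_Dm,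
      rename_rename_rev]

theorem map_map_rev (n : ℕ)
    (F : MvPolynomial (Fin n ↪o Fin (n + 2)) (MvPolynomial (Fin (n + 2)) K)) :
    map (rename Fin.rev : MvPolynomial (Fin (n + 2)) K →ₐ[K] _).toRingHom
      (map (rename Fin.rev : _ →ₐ[K] _).toRingHom F) = F := by
  rw [map_map]
  have : ((rename Fin.rev : MvPolynomial (Fin (n + 2)) K →ₐ[K] _).toRingHom.comp
      (rename Fin.rev : MvPolynomial (Fin (n + 2)) K →ₐ[K] _).toRingHom) = RingHom.id _ := by
    apply RingHom.ext
    intro s
    exact rename_rename_rev s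
  rw [this, map_id]

theorem biH_map {n a b : ℕ}
    {F : MvPolynomial (Fin n ↪o Fin (n + 2)) (MvPolynomial (Fin (n + 2)) K)}
    (hF : H48.Hk.BiH a b F) :
    BiHom K n (n + 2) a b (map (rename Fin.rev : _ →ₐ[K] _).toRingHom F) := by
  refine ⟨hF.1.map _, fun d => ?_⟩
  rw [coeff_map]
  exact (hF.2 d).rename_isHomogeneous

theorem mem_span_of_homog [CharZero K] {n b : ℕ}
    {F : MvPolynomial (Fin n ↪o Fin (n + 2)) (MvPolynomial (Fin (n + 2)) K)}
    (hF : F.IsHomogeneous b) (h0 : aeval (maxMinor K n (n + 2)) F = 0) :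
    F ∈ Ideal.span {F | F ∈ RingHom.ker (phi K n (n + 2)) ∧
      ((∃ b, BiHom K n (n + 2) 0 b F) ∨ (∃ a, BiHom K n (n + 2) a 1 F))} := by
  have h1 : map (rename Fin.rev : _ →ₐ[K] _).toRingHom F ∈ H48.Hk.I1 K n ⊔ H48.Hk.I2 K n := by
    apply H48.Hk.core (hF.map _)
    rw [aeval_map_rename', h0, map_zero]
  have h2 := Ideal.mem_map_of_mem
    (map (σ := Fin n ↪o Fin (n + 2)) (rename Fin.rev :
      MvPolynomial (Fin (n + 2)) K →ₐ[K] _).toRingHom) h1
  rw [map_map_rev] at h2
  have hker : ∀ {a b : ℕ}
      {G : MvPolynomial (Fin n ↪o Fin (n + 2)) (MvPolynomial (Fin (n + 2)) K)},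
      H48.Hk.BiH a b G → aeval (H48.Hk.Dm K n) G = 0 →
      map (rename Fin.rev : _ →ₐ[K] _).toRingHom G ∈ RingHom.ker (phi K n (n + 2)) := by
    intro a b G hG hG0
    rw [RingHom.mem_ker, phi_homog (biH_map hG).1, aeval_map_rename, hG0, map_zero, map_zero,
      zero_mul]
  refine Ideal.map_le_iff_le_comap.mpr ?_ h2
  apply sup_le
  · unfold H48.Hk.I1
    rw [Ideal.span_le]
    rintro G ⟨hG0, hG⟩
    apply Ideal.subset_span
    exact ⟨hker hG hG0, Or.inr ⟨1, biH_map hG⟩⟩
  · unfold H48.Hk.I2
    rw [Ideal.span_le]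
    rintro G ⟨hG0, b, hG⟩
    apply Ideal.subset_span
    exact ⟨hker hG hG0, Or.inl ⟨b, biH_map hG⟩⟩

end

/-- For a field of characteristic `0`, every `n ≥ 1` and `r = n - 1`, the ideal of maximal minors
of the degenerate Hankel matrix `H[r]` is of fiber type. -/
theorem result (K : Type*) [Field K] [CharZero K] (n r : ℕ) (hn : 1 ≤ n) (hr : r = n - 1) :
    FiberType K n (2 * n + 1 - r) := by
  have hm : 2 * n + 1 - r = n + 2 := by omega
  rw [hm]
  unfold FiberType
  apply le_antisymm
  · intro F hF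
    rw [RingHom.mem_ker] at hF
    rw [← sum_homogeneousComponent F]
    apply Ideal.sum_mem
    intro b _
    exact mem_span_of_homog (homogeneousComponent_isHomogeneous b F) (aeval_component hF b)
  · rw [Ideal.span_le]
    intro F hF
    exact hF.1

end Pool.Agent.Results.MP_0201c8_ag.FiberTypeLast
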